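import Mathlib

/-!
# A hierarchical limit-periodic potential with a square-summable solution at energy zero
-/

open Filter Topology

namespace Pool.Agent.Helper92.LimPer.Con

/-! ### Solutions of three-term recurrences -/

/-- solution of `P(l+1) = d(l) P(l) - P(l-1)` with `P(0) = 0`, `P(1) = 1` -/
def P (d : ℕ → ℝ) : ℕ → ℝ
  | 0 => 0
  | 1 => 1
  | l + 2 => d (l + 1) * P d (l + 1) - P d l

theorem P_zero (d : ℕ → ℝ) : P d 0 = 0 := rfl
theorem P_one (d : ℕ → ℝ) : P d 1 = 1 := rfl
theorem P_succ (d : ℕ → ℝ) (l : ℕ) : P d (l + 2) = d (l + 1) * P d (l + 1) - P d l := rfl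

theorem P_growth (d : ℕ → ℝ) (M : ℕ) (g : ℝ) (hg : 3 ≤ g) (hd : ∀ l, 1 ≤ l → l < M → g ≤ d l) :
    ∀ l, l < M → 0 ≤ P d l ∧ 0 < P d (l + 1) ∧ P d l ≤ P d (l + 1) ∧
      (1 ≤ l → (d l - 1) * P d l ≤ P d (l + 1)) := by
  intro l
  induction l with
  | zero => intro _; rw [P_zero]; simp [P_one]
  | succ l ih =>
    intro hl
    obtain ⟨h1, h2, h3, -⟩ := ih (by omega)
    have h4 := hd (l + 1) (by omega) hl
    have h5 : (d (l + 1) - 1) * P d (l + 1) ≤ P d (l + 1 + 1) := by
      rw [P_succ]; nlinarith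
    have h6 : P d (l + 1) ≤ (d (l + 1) - 1) * P d (l + 1) := by nlinarith
    exact ⟨h2.le, by linarith, by linarith, fun _ => h5⟩

theorem P_uniq (d : ℕ → ℝ) (M : ℕ) (z : ℕ → ℝ) (h0 : z 0 = 0)
    (h : ∀ l, 1 ≤ l → l < M → z (l + 1) + z (l - 1) = d l * z l) :
    ∀ l, l ≤ M → z l = z 1 * P d l := by
  intro l
  induction l using Nat.strong_induction_on with
  | _ l ih =>
    intro hl
    match l, ih, hl with
    | 0, _, _ => simp [h0, P_zero]
    | 1, _, _ => simp [P_one]
    | l + 2, ih, hl =>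
      have h1 := h (l + 1) (by omega) (by omega)
      have h2 := ih (l + 1) (by omega) (by omega)
      have h3 := ih l (by omega) (by omega)
      rw [P_succ]
      simp only [Nat.add_sub_cancel] at h1
      have : z (l + 2) = d (l + 1) * z (l + 1) - z l := by linarith
      rw [this, h2, h3]; ring

theorem P_interp (d : ℕ → ℝ) (M : ℕ) (hPM : P d M ≠ 0)
    (hsym : ∀ l, 1 ≤ l → l < M → d (M - l) = d l)
    (z : ℕ → ℝ) (h : ∀ l, 1 ≤ l → l < M → z (l + 1) + z (l - 1) = d l * z l) :
    ∀ l, l ≤ M → P d M * z l = P d (M - l) * z 0 + P d l * z M := by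
  have hrev : ∀ l, 1 ≤ l → l < M → P d (M - (l + 1)) + P d (M - (l - 1)) = d l * P d (M - l) := by
    intro l h1 h2
    obtain ⟨t, ht⟩ : ∃ t, M = l + t + 1 := ⟨M - l - 1, by omega⟩
    have e1 : M - (l + 1) = t := by omega
    have e2 : M - (l - 1) = t + 2 := by omega
    have e3 : M - l = t + 1 := by omega
    have h3 := hsym l h1 h2
    rw [e1, e2, e3, P_succ, ← h3, e3]; ring
  set w : ℕ → ℝ := fun l => P d M * z l - P d (M - l) * z 0 - P d l * z M with hw
  have hw0 : w 0 = 0 := by simp [hw, P_zero]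
  have hwM : w M = 0 := by simp [hw, P_zero]
  have hwr : ∀ l, 1 ≤ l → l < M → w (l + 1) + w (l - 1) = d l * w l := by
    intro l h1 h2
    have h3 := h l h1 h2
    have h4 := hrev l h1 h2
    obtain ⟨t, rfl⟩ : ∃ t, l = t + 1 := ⟨l - 1, by omega⟩
    have h5 : P d (t + 2) = d (t + 1) * P d (t + 1) - P d t := P_succ d t
    simp only [hw, Nat.add_sub_cancel] at h3 h4 ⊢
    have h6 : P d (t + 1 + 1) = P d (t + 2) := rfl
    rw [h6, h5]
    linear_combination (P d M) * h3 - z 0 * h4
  have huni := P_uniq d M w hw0 hwr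
  have h1 := huni M le_rfl
  rw [hwM] at h1
  have h2 : w 1 = 0 := by
    rcases mul_eq_zero.1 h1.symm with h | h
    · exact h
    · exact absurd h hPM
  intro l hl
  have h3 := huni l hl
  rw [h2, zero_mul] at h3
  simp only [hw] at h3
  linarith

theorem P_sum (d : ℕ → ℝ) (M : ℕ) (g : ℝ) (hg : 3 ≤ g) (hd : ∀ l, 1 ≤ l → l < M → g ≤ d l) :
    ∀ n, n ≤ M → ∑ l ∈ Finset.range n, P d l ≤ P d n / (g - 2) := by
  have hg2 : 0 < g - 2 := by linarith
  intro n
  induction n with
  | zero => intro _; simp [P_zero]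
  | succ n ih =>
    intro hn
    rw [Finset.sum_range_succ]
    have h1 := ih (by omega)
    obtain ⟨h2, h3, h4, h5⟩ := P_growth d M g hg hd n (by omega)
    rcases Nat.eq_zero_or_pos n with rfl | hn0
    · simp only [Finset.range_zero, Finset.sum_empty, P_zero, zero_add, P_one, add_zero]
      positivity
    · have h6 := h5 hn0
      have h7 := hd n hn0 (by omega)
      have h8 : (g - 1) * P d n ≤ P d (n + 1) := by nlinarith
      rw [le_div_iff₀ hg2] at h1 ⊢
      nlinarith

/-! ### The parameters -/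

/-- number of cells of level `k` in a cell of level `k+1` -/
def m (k : ℕ) : ℕ := 2 ^ (k + 5)

/-- the periods -/
def q : ℕ → ℕ
  | 0 => 1
  | k + 1 => q k * m k

def L (k : ℕ) : ℝ := 2 ^ (k + 3)

def dd (k : ℕ) (x : ℝ) (l : ℕ) : ℝ := if l = 1 ∨ l + 1 = m k then L k else x

noncomputable def B : ℕ → ℝ
  | 0 => 1
  | k + 1 => B k / P (dd k (2 ^ 10 / 2 ^ k / B k)) (m k)

noncomputable def E (k : ℕ) : ℝ := 2 ^ 10 / 2 ^ k / B k

noncomputable def p (k l : ℕ) : ℝ := P (dd k (E k)) l

noncomputable def a (k : ℕ) : ℝ := 2 * p k (m k - 1) / p k (m k)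

noncomputable def b (k : ℕ) : ℝ := 1 / p k (m k)

theorem m_ge (k : ℕ) : 32 ≤ m k := by
  unfold m
  calc 32 = 2 ^ 5 := by norm_num
    _ ≤ 2 ^ (k + 5) := Nat.pow_le_pow_right (by norm_num) (by omega)

theorem m_succ (k : ℕ) : m (k + 1) = 2 * m k := by unfold m; ring

theorem q_pos (k : ℕ) : 0 < q k := by
  induction k with
  | zero => simp [q]
  | succ k ih => exact Nat.mul_pos ih (by have := m_ge k; omega)

theorem le_q (k : ℕ) : k + 1 ≤ q k := by
  induction k with
  | zero => simp [q]
  | succ k ih =>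
    have := m_ge k
    calc k + 1 + 1 ≤ 2 * (k + 1) := by omega
      _ ≤ 2 * q k := by omega
      _ ≤ m k * q k := Nat.mul_le_mul_right _ (by omega)
      _ = q (k + 1) := by rw [q]; ring

theorem L_ge (k : ℕ) : 8 ≤ L k := by
  unfold L
  calc (8 : ℝ) = 2 ^ 3 := by norm_num
    _ ≤ 2 ^ (k + 3) := pow_le_pow_right₀ (by norm_num) (by omega)

theorem B_succ (k : ℕ) : B (k + 1) = B k / p k (m k) := rfl

theorem dd_ge (k : ℕ) (x : ℝ) (hx : L k ≤ x) (l : ℕ) : L k ≤ dd k x l := by
  unfold dd; split_ifs <;> linarith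

/-- lower bound for the growth over one cell -/
theorem P_dd_ge (k : ℕ) (x : ℝ) (hx : L k ≤ x) : (x - 1) ^ (m k - 3) ≤ P (dd k x) (m k) := by
  have hL := L_ge k
  have hm := m_ge k
  have hgr := P_growth (dd k x) (m k) (L k) (by linarith) (fun l _ _ => dd_ge k x hx l)
  have key : ∀ j, j + 2 < m k → (x - 1) ^ j ≤ P (dd k x) (j + 2) := by
    intro j
    induction j with
    | zero =>
      intro _
      have h := (hgr 1 (by omega)).2.2.1
      rw [P_one] at h
      simpa using h
    | succ j ih =>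
      intro hj
      have h1 := ih (by omega)
      obtain ⟨h2, h3, h4, h5⟩ := hgr (j + 2) (by omega)
      have h6 := h5 (by omega)
      have h7 : dd k x (j + 2) = x := by
        unfold dd; rw [if_neg]; omega
      rw [h7] at h6
      calc (x - 1) ^ (j + 1) = (x - 1) * (x - 1) ^ j := by ring
        _ ≤ (x - 1) * P (dd k x) (j + 2) := mul_le_mul_of_nonneg_left h1 (by linarith)
        _ ≤ P (dd k x) (j + 2 + 1) := h6
  have h1 := key (m k - 3) (by omega)
  have h2 := (hgr (m k - 1) (by omega)).2.2.1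
  have e1 : m k - 3 + 2 = m k - 1 := by omega
  have e2 : m k - 1 + 1 = m k := by omega
  rw [e1] at h1
  rw [e2] at h2
  exact h1.trans h2

theorem B_main (k : ℕ) : 0 < B (k + 1) ∧ B (k + 1) ≤ (1 / 2 : ℝ) ^ (4 * q (k + 1) + 64 * q k) := by
  induction k with
  | zero =>
    have hB : B 1 = 1 / P (dd 0 1024) 32 := by
      rw [B_succ]
      have : p 0 (m 0) = P (dd 0 1024) 32 := by
        unfold p E
        have h1 : m 0 = 32 := by norm_num [m]
        have h2 : (2 : ℝ) ^ 10 / 2 ^ 0 / B 0 = 1024 := by norm_num [B]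
        rw [h1, h2]
      rw [this]; rfl
    have hL0 : L 0 = 8 := by norm_num [L]
    have h1 := P_dd_ge 0 1024 (by rw [hL0]; norm_num)
    have h2 : m 0 = 32 := by norm_num [m]
    rw [h2] at h1
    have hq : 4 * q (0 + 1) + 64 * q 0 = 192 := by simp [q, h2]
    rw [zero_add, hB]
    rw [zero_add] at hq
    rw [hq]
    have h3 : (2 : ℝ) ^ 192 ≤ (1024 - 1) ^ (32 - 3) := by norm_num
    have h4 : (2 : ℝ) ^ 192 ≤ P (dd 0 1024) 32 := h3.trans h1
    have h5 : (0 : ℝ) < 2 ^ 192 := by positivity
    refine ⟨by have := h5.trans_le h4; positivity, ?_⟩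
    rw [one_div_pow]
    exact one_div_le_one_div_of_le h5 h4
  | succ k ih =>
    obtain ⟨hB0, hB⟩ := ih
    set N := 4 * q (k + 1) + 64 * q k with hN
    have hqk := le_q k
    have hkN : k ≤ N := by omega
    -- lower bound for E
    have hE : (2 : ℝ) ^ (N + 9 - k) ≤ E (k + 1) := by
      unfold E
      rw [le_div_iff₀ hB0, le_div_iff₀ (by positivity)]
      calc (2 : ℝ) ^ (N + 9 - k) * B (k + 1) * 2 ^ (k + 1)
          ≤ (2 : ℝ) ^ (N + 9 - k) * (1 / 2 : ℝ) ^ N * 2 ^ (k + 1) := by gcongr
        _ = (2 : ℝ) ^ (N + 9 - k) * 2 ^ (k + 1) * (1 / 2 : ℝ) ^ N := by ring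
        _ = 2 ^ (10 + N) * (1 / 2 : ℝ) ^ N := by
          rw [← pow_add]; congr 2; omega
        _ = 2 ^ 10 * (2 * (1 / 2 : ℝ)) ^ N := by rw [pow_add, mul_pow]; ring
        _ = 2 ^ 10 := by norm_num
    have hLE : L (k + 1) ≤ E (k + 1) := by
      refine le_trans ?_ hE
      unfold L
      exact pow_le_pow_right₀ (by norm_num) (by omega)
    have hE1 : (2 : ℝ) ^ (N + 8 - k) ≤ E (k + 1) - 1 := by
      have h1 : (2 : ℝ) ^ (N + 9 - k) = 2 * 2 ^ (N + 8 - k) := by
        rw [← pow_succ']; congr 1; omega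
      have h2 : (1 : ℝ) ≤ 2 ^ (N + 8 - k) := one_le_pow₀ (by norm_num)
      linarith
    have hP := P_dd_ge (k + 1) (E (k + 1)) hLE
    have hP2 : (2 : ℝ) ^ ((N + 8 - k) * (m (k + 1) - 3)) ≤ p (k + 1) (m (k + 1)) := by
      refine le_trans ?_ hP
      rw [pow_mul]
      exact pow_le_pow_left₀ (by positivity) hE1 _
    have hP0 : 0 < p (k + 1) (m (k + 1)) := lt_of_lt_of_le (by positivity) hP2
    rw [B_succ]
    refine ⟨div_pos hB0 hP0, ?_⟩
    have hexp : 4 * q (k + 1 + 1) + 64 * q (k + 1) ≤ N + (N + 8 - k) * (m (k + 1) - 3) := by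
      have hM := m_ge k
      have e1 : q (k + 1) = q k * m k := rfl
      have e2 : q (k + 1 + 1) = q k * m k * (2 * m k) := by
        show q (k + 1) * m (k + 1) = _
        rw [m_succ]; rfl
      rw [hN, e1, e2, m_succ]
      generalize q k = x at *
      generalize m k = M at *
      obtain ⟨M', rfl⟩ : ∃ M', M = M' + 32 := ⟨M - 32, by omega⟩
      have h1 : 2 * (M' + 32) - 3 = 2 * M' + 61 := by omega
      rw [h1]
      have h2 : 4 * (x * (M' + 32)) + 63 * x ≤ 4 * (x * (M' + 32)) + 64 * x + 8 - k := by omega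
      have h3 : (4 * (x * (M' + 32)) + 63 * x) * (2 * M' + 61) ≤
          (4 * (x * (M' + 32)) + 64 * x + 8 - k) * (2 * M' + 61) := Nat.mul_le_mul_right _ h2
      nlinarith
    calc B (k + 1) / p (k + 1) (m (k + 1))
        ≤ (1 / 2 : ℝ) ^ N / 2 ^ ((N + 8 - k) * (m (k + 1) - 3)) := by gcongr
      _ = (1 / 2 : ℝ) ^ (N + (N + 8 - k) * (m (k + 1) - 3)) := by
        rw [pow_add (1 / 2 : ℝ) N, one_div_pow 2 ((N + 8 - k) * (m (k + 1) - 3))]; ring
      _ ≤ (1 / 2 : ℝ) ^ (4 * q (k + 1 + 1) + 64 * q (k + 1)) :=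
        pow_le_pow_of_le_one (by norm_num) (by norm_num) hexp

theorem B_pos (k : ℕ) : 0 < B k := by
  cases k with
  | zero => simp [B]
  | succ k => exact (B_main k).1

theorem L_le_E (k : ℕ) : L k ≤ E k := by
  cases k with
  | zero => norm_num [L, E, B]
  | succ k =>
    have hB0 := (B_main k).1
    have hB := (B_main k).2
    set N := 4 * q (k + 1) + 64 * q k with hN
    have hqk := le_q k
    unfold E L
    rw [le_div_iff₀ hB0, le_div_iff₀ (by positivity)]
    calc (2 : ℝ) ^ (k + 1 + 3) * B (k + 1) * 2 ^ (k + 1)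
        ≤ (2 : ℝ) ^ (k + 1 + 3) * (1 / 2 : ℝ) ^ N * 2 ^ (k + 1) := by gcongr
      _ = (2 : ℝ) ^ (k + 1 + 3 + (k + 1)) * (1 / 2 : ℝ) ^ N := by rw [pow_add]; ring
      _ ≤ (2 : ℝ) ^ (10 + N) * (1 / 2 : ℝ) ^ N :=
        mul_le_mul_of_nonneg_right (pow_le_pow_right₀ (by norm_num) (by omega)) (by positivity)
      _ = 2 ^ 10 * (2 * (1 / 2 : ℝ)) ^ N := by rw [pow_add, mul_pow]; ring
      _ = 2 ^ 10 := by norm_num

theorem dd_ge' (k l : ℕ) : L k ≤ dd k (E k) l := dd_ge k _ (L_le_E k) l

theorem p_growth (k l : ℕ) (hl : l < m k) : 0 ≤ p k l ∧ 0 < p k (l + 1) ∧ p k l ≤ p k (l + 1) ∧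
    (1 ≤ l → (dd k (E k) l - 1) * p k l ≤ p k (l + 1)) :=
  P_growth (dd k (E k)) (m k) (L k) (by linarith [L_ge k]) (fun l _ _ => dd_ge' k l) l hl

theorem p_pos (k : ℕ) : 0 < p k (m k) := by
  have hm := m_ge k
  have := (p_growth k (m k - 1) (by omega)).2.1
  have e : m k - 1 + 1 = m k := by omega
  rwa [e] at this

theorem p_last (k : ℕ) : 7 * p k (m k - 1) ≤ p k (m k) ∧ 1 ≤ p k (m k - 1) := by
  have hm := m_ge k
  have hL := L_ge k
  have h1 := p_growth k (m k - 1) (by omega)
  have e : m k - 1 + 1 = m k := by omega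
  rw [e] at h1
  have h2 := h1.2.2.2 (by omega)
  have h3 := dd_ge' k (m k - 1)
  have hmono : ∀ j, j + 1 < m k → 1 ≤ p k (j + 1) := by
    intro j
    induction j with
    | zero => intro _; exact le_of_eq (P_one _).symm
    | succ j ih =>
      intro hj
      exact (ih (by omega)).trans (p_growth k (j + 1) (by omega)).2.2.1
  have h4 := hmono (m k - 2) (by omega)
  have e2 : m k - 2 + 1 = m k - 1 := by omega
  rw [e2] at h4
  refine ⟨?_, h4⟩
  nlinarith [h1.1]

theorem b_pos (k : ℕ) : 0 < b k := by unfold b; have := p_pos k; positivity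

theorem b_le (k : ℕ) : b k ≤ 1 / 2 := by
  unfold b
  have h := p_last k
  exact one_div_le_one_div_of_le (by norm_num) (by linarith)

theorem a_nonneg (k : ℕ) : 0 ≤ a k := by
  unfold a
  have h := p_last k
  have := p_pos k
  have : 0 ≤ p k (m k - 1) := by linarith
  positivity

theorem a_le (k : ℕ) : a k ≤ 2 / 7 := by
  unfold a
  have h := p_last k
  rw [div_le_div_iff₀ (p_pos k) (by norm_num)]
  linarith

theorem B_succ' (k : ℕ) : B (k + 1) = B k * b k := by
  rw [B_succ]; unfold b; ring

theorem B_add_le (k l : ℕ) : B (k + l) ≤ B k * (1 / 2 : ℝ) ^ l := by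
  induction l with
  | zero => simp
  | succ l ih =>
    rw [← add_assoc, B_succ', pow_succ, ← mul_assoc]
    exact mul_le_mul ih (b_le _) (b_pos _).le (by have := B_pos k; positivity)

/-! ### The function `D` -/

noncomputable def Z (k : ℕ) : ℝ := (∑' l, B (k + l) * a (k + l)) / B k

theorem summable_Ba (k : ℕ) : Summable fun l => B (k + l) * a (k + l) := by
  refine Summable.of_nonneg_of_le (fun l => mul_nonneg (B_pos _).le (a_nonneg _)) (fun l => ?_)
    ((summable_geometric_of_lt_one (r := (1 / 2 : ℝ)) (by norm_num) (by norm_num)).mul_left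
      (B k * (2 / 7)))
  calc B (k + l) * a (k + l) ≤ (B k * (1 / 2 : ℝ) ^ l) * (2 / 7) :=
        mul_le_mul (B_add_le k l) (a_le _) (a_nonneg _) (by have := B_pos k; positivity)
    _ = B k * (2 / 7) * (1 / 2 : ℝ) ^ l := by ring

theorem B_mul_Z (k : ℕ) : B k * Z k = ∑' l, B (k + l) * a (k + l) := by
  unfold Z
  rw [mul_div_cancel₀ _ (B_pos k).ne']

theorem Z_nonneg (k : ℕ) : 0 ≤ Z k :=
  div_nonneg (tsum_nonneg fun _ => mul_nonneg (B_pos _).le (a_nonneg _)) (B_pos k).le

theorem Z_le (k : ℕ) : Z k ≤ 1 := by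
  unfold Z
  rw [div_le_one (B_pos k)]
  calc ∑' l, B (k + l) * a (k + l) ≤ ∑' l : ℕ, (B k * (2 / 7)) * (1 / 2 : ℝ) ^ l := by
        refine (summable_Ba k).tsum_le_tsum (fun l => ?_)
          ((summable_geometric_of_lt_one (r := (1 / 2 : ℝ)) (by norm_num) (by norm_num)).mul_left
            (B k * (2 / 7)))
        calc B (k + l) * a (k + l) ≤ (B k * (1 / 2 : ℝ) ^ l) * (2 / 7) :=
              mul_le_mul (B_add_le k l) (a_le _) (a_nonneg _) (by have := B_pos k; positivity)
          _ = B k * (2 / 7) * (1 / 2 : ℝ) ^ l := by ring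
    _ = (B k * (2 / 7)) * 2 := by
        rw [tsum_mul_left, tsum_geometric_of_lt_one (by norm_num) (by norm_num)]; norm_num
    _ ≤ B k := by have := B_pos k; linarith

theorem Z_rec (k : ℕ) : Z k = a k + b k * Z (k + 1) := by
  have h1 := B_mul_Z k
  rw [(summable_Ba k).tsum_eq_zero_add] at h1
  have h2 := B_mul_Z (k + 1)
  have h3 : (fun l => B (k + (l + 1)) * a (k + (l + 1))) =
      fun l => B (k + 1 + l) * a (k + 1 + l) := by
    ext l; rw [show k + (l + 1) = k + 1 + l by ring]
  rw [h3, ← h2, add_zero, B_succ'] at h1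
  have hB := (B_pos k).ne'
  apply mul_left_cancel₀ hB
  rw [h1]; ring

theorem int_div_lt {M : ℤ} (hM : 2 ≤ M) {i : ℤ} (hi : i ≠ 0) (hd : M ∣ i) :
    (i / M).natAbs < i.natAbs := by
  obtain ⟨j, rfl⟩ := hd
  rw [Int.mul_ediv_cancel_left _ (by omega), Int.natAbs_mul]
  have hj : j ≠ 0 := by rintro rfl; simp at hi
  have h1 : 1 ≤ j.natAbs := Int.natAbs_pos.2 hj
  have h2 : 2 ≤ M.natAbs := by omega
  nlinarith

noncomputable def D (k : ℕ) (i : ℤ) : ℝ :=
  if h0 : i = 0 then Z k
  else if h : (m k : ℤ) ∣ i then a k + b k * D (k + 1) (i / m k)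
  else dd k (E k) (i % m k).toNat
termination_by i.natAbs
decreasing_by
  exact int_div_lt (by have := m_ge k; omega) h0 h

theorem D_zero (k : ℕ) : D k 0 = Z k := by
  rw [D]; simp

theorem D_of_not_dvd (k : ℕ) (i : ℤ) (h : ¬ (m k : ℤ) ∣ i) :
    D k i = dd k (E k) (i % m k).toNat := by
  have h0 : i ≠ 0 := by rintro rfl; exact h (dvd_zero _)
  rw [D]; simp [h0, h]

theorem D_mul (k : ℕ) (j : ℤ) : D k (m k * j) = a k + b k * D (k + 1) j := by
  have hm : (m k : ℤ) ≠ 0 := by have := m_ge k; omega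
  rcases eq_or_ne j 0 with rfl | hj
  · rw [mul_zero, D_zero, D_zero, Z_rec]
  · rw [D]
    have h0 : (m k : ℤ) * j ≠ 0 := mul_ne_zero hm hj
    simp only [h0, dvd_mul_right, dite_true, dite_false]
    rw [Int.mul_ediv_cancel_left _ hm]

theorem dd_symm (k : ℕ) (x : ℝ) (l : ℕ) (h1 : 1 ≤ l) (h2 : l < m k) :
    dd k x (m k - l) = dd k x l := by
  unfold dd
  have : (m k - l = 1 ∨ m k - l + 1 = m k) ↔ (l = 1 ∨ l + 1 = m k) := by omega
  simp only [this]

theorem D_neg (i : ℤ) : ∀ k, D k (-i) = D k i := by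
  induction hn : i.natAbs using Nat.strong_induction_on generalizing i with
  | _ n ih =>
    intro k
    have hm : (m k : ℤ) ≠ 0 := by have := m_ge k; omega
    rcases eq_or_ne i 0 with rfl | hi
    · simp
    by_cases hd : (m k : ℤ) ∣ i
    · obtain ⟨j, rfl⟩ := hd
      have hlt := int_div_lt (by have := m_ge k; omega) hi (dvd_mul_right (m k : ℤ) j)
      rw [Int.mul_ediv_cancel_left _ hm, hn] at hlt
      rw [← mul_neg, D_mul, D_mul, ih _ hlt j rfl]
    · have hd' : ¬ (m k : ℤ) ∣ -i := by rwa [Int.dvd_neg]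
      rw [D_of_not_dvd k i hd, D_of_not_dvd k (-i) hd']
      have hmpos : (0 : ℤ) < m k := by have := m_ge k; omega
      have h1 := Int.emod_nonneg i hm
      have h2 := Int.emod_lt_of_pos i hmpos
      have h3 : i % m k ≠ 0 := fun h => hd (Int.dvd_of_emod_eq_zero h)
      have h4 : (-i) % m k = m k - i % m k := by
        have h5 := Int.emod_add_mul_ediv i (m k)
        have : -i = (m k - i % m k) + m k * (-(i / m k) - 1) := by
          linear_combination h5
        rw [this, Int.add_mul_emod_self_left]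
        exact Int.emod_eq_of_lt (by omega) (by omega)
      have h6 : ((-i) % m k).toNat = m k - (i % m k).toNat := by omega
      rw [h6]
      exact dd_symm k _ _ (by omega) (by omega)

theorem BE (k : ℕ) : B k * E k = 2 ^ 10 / 2 ^ k := by
  unfold E
  rw [mul_div_cancel₀ _ (B_pos k).ne']

theorem BL_le (k : ℕ) : B k * L k ≤ 2 ^ 10 / 2 ^ k := by
  rw [← BE]
  exact mul_le_mul_of_nonneg_left (L_le_E k) (B_pos k).le

theorem Ba_le (k : ℕ) : B k * a k ≤ 2 ^ 10 / 2 ^ k := by
  refine le_trans ?_ (BL_le k)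
  have h1 := a_le k
  have h2 := L_ge k
  exact mul_le_mul_of_nonneg_left (by linarith) (B_pos k).le

theorem D_bound (i : ℤ) : ∀ k, 0 ≤ D k i ∧ B k * D k i ≤ 2 ^ 11 / 2 ^ k := by
  induction hn : i.natAbs using Nat.strong_induction_on generalizing i with
  | _ n ih =>
    intro k
    have hm : (m k : ℤ) ≠ 0 := by have := m_ge k; omega
    have hB := B_pos k
    have h2k : (0 : ℝ) < 2 ^ 10 / 2 ^ k := by positivity
    have h11 : (2 : ℝ) ^ 11 / 2 ^ k = 2 ^ 10 / 2 ^ k + 2 ^ 10 / 2 ^ k := by ring
    rcases eq_or_ne i 0 with rfl | hi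
    · rw [D_zero]
      refine ⟨Z_nonneg k, ?_⟩
      have h1 := Z_le k
      have h2 := BL_le k
      have h3 := L_ge k
      have : B k * Z k ≤ B k * L k := mul_le_mul_of_nonneg_left (by linarith) hB.le
      linarith
    by_cases hd : (m k : ℤ) ∣ i
    · obtain ⟨j, rfl⟩ := hd
      have hlt := int_div_lt (by have := m_ge k; omega) hi (dvd_mul_right (m k : ℤ) j)
      rw [Int.mul_ediv_cancel_left _ hm, hn] at hlt
      obtain ⟨h1, h2⟩ := ih _ hlt j rfl (k + 1)
      rw [D_mul]
      refine ⟨add_nonneg (a_nonneg k) (mul_nonneg (b_pos k).le h1), ?_⟩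
      have h3 : B k * (a k + b k * D (k + 1) j) = B k * a k + B (k + 1) * D (k + 1) j := by
        rw [B_succ']; ring
      rw [h3]
      have h4 := Ba_le k
      have h5 : (2 : ℝ) ^ 11 / 2 ^ (k + 1) = 2 ^ 10 / 2 ^ k := by
        rw [div_eq_div_iff (by positivity) (by positivity)]; ring
      linarith
    · rw [D_of_not_dvd k i hd]
      have h0 := dd_ge' k (i % m k).toNat
      have h1 := L_ge k
      refine ⟨by linarith, ?_⟩
      have h2 : B k * dd k (E k) (i % m k).toNat ≤ 2 ^ 10 / 2 ^ k := by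
        unfold dd
        split_ifs
        · exact BL_le k
        · exact (BE k).le
      linarith

/-! ### The potential -/

noncomputable def V (n : ℤ) : ℝ := -D 0 n

noncomputable def A (k : ℕ) : ℝ := ∑ l ∈ Finset.range k, B l * a l

theorem V_level (k : ℕ) : ∀ j : ℤ, V (q k * j) = -(A k + B k * D k j) := by
  induction k with
  | zero => intro j; simp [V, q, A, B]
  | succ k ih =>
    intro j
    have h1 : ((q (k + 1) : ℕ) : ℤ) * j = q k * (m k * j) := by
      show ((q k * m k : ℕ) : ℤ) * j = _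
      push_cast; ring
    rw [h1, ih, D_mul]
    have h2 : A (k + 1) = A k + B k * a k := Finset.sum_range_succ _ _
    rw [h2, B_succ']; ring

theorem V_neg (n : ℤ) : V (-n) = V n := by unfold V; rw [D_neg]

theorem V_congr (k : ℕ) : ∀ n n' : ℤ, (q k : ℤ) ∣ n - n' → ¬ (q k : ℤ) ∣ n → V n = V n' := by
  induction k with
  | zero => intro n n' _ h; exact absurd (by simp [q]) h
  | succ k ih =>
    intro n n' h1 h2
    have hq : ((q (k + 1) : ℕ) : ℤ) = q k * m k := by
      show ((q k * m k : ℕ) : ℤ) = _; push_cast; ring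
    rw [hq] at h1 h2
    have h1' : (q k : ℤ) ∣ n - n' := (dvd_mul_right _ _).trans h1
    by_cases hd : (q k : ℤ) ∣ n
    · obtain ⟨j, rfl⟩ := hd
      have hd' : (q k : ℤ) ∣ n' := by
        have := dvd_sub (dvd_mul_right (q k : ℤ) j) h1'
        simpa using this
      obtain ⟨j', rfl⟩ := hd'
      have hqk : (q k : ℤ) ≠ 0 := by have := q_pos k; omega
      have h3 : (m k : ℤ) ∣ j - j' := by
        rw [← mul_sub] at h1
        exact Int.dvd_of_mul_dvd_mul_left hqk h1
      have h4 : ¬ (m k : ℤ) ∣ j := fun h => h2 (mul_dvd_mul_left _ h)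
      have h5 : ¬ (m k : ℤ) ∣ j' := fun h => h4 (by
        have := dvd_add h3 h
        simpa using this)
      rw [V_level, V_level, D_of_not_dvd k j h4, D_of_not_dvd k j' h5]
      have h6 : j % m k = j' % m k :=
        Int.emod_eq_emod_iff_emod_sub_eq_zero.2 (Int.emod_eq_zero_of_dvd h3)
      rw [h6]
    · exact ih n n' h1' hd

/-- periodic approximants -/
noncomputable def W (k : ℕ) (n : ℤ) : ℝ := by
  classical exact if (q k : ℤ) ∣ n then -A k else V n

theorem W_periodic (k : ℕ) (n : ℤ) : W k (n + q k) = W k n := by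
  classical
  unfold W
  by_cases h : (q k : ℤ) ∣ n
  · have h' : (q k : ℤ) ∣ n + q k := dvd_add h (dvd_refl _)
    rw [if_pos h, if_pos h']
  · have h' : ¬ (q k : ℤ) ∣ n + q k := fun h' => h (by simpa using dvd_sub h' (dvd_refl _))
    rw [if_neg h, if_neg h']
    exact V_congr k _ _ (by simp) h'

theorem V_sub_W (k : ℕ) (n : ℤ) : |V n - W k n| ≤ 2 ^ 11 / 2 ^ k := by
  classical
  unfold W
  by_cases h : (q k : ℤ) ∣ n
  · rw [if_pos h]
    obtain ⟨j, rfl⟩ := h
    rw [V_level]
    have h1 := D_bound j k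
    have h2 := mul_nonneg (B_pos k).le h1.1
    have h3 : -(A k + B k * D k j) - -A k = -(B k * D k j) := by ring
    rw [h3, abs_neg, abs_of_nonneg h2]
    exact h1.2
  · rw [if_neg h]; simp; positivity

theorem V_bound (n : ℤ) : |V n| ≤ 2 ^ 11 := by
  have h1 := D_bound n 0
  unfold V
  rw [abs_neg, abs_of_nonneg h1.1]
  have := h1.2
  simpa [B] using this

theorem V_zero_sub (k : ℕ) : |V 0 - V (q k)| ≤ B k * L k := by
  have h0 := V_level k 0
  have h1 := V_level k 1
  rw [mul_zero] at h0
  rw [mul_one] at h1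
  have hm := m_ge k
  have h2 : D k 1 = L k := by
    rw [D_of_not_dvd k 1 (by
      intro h
      have := Int.le_of_dvd one_pos h
      omega)]
    have : ((1 : ℤ) % (m k : ℤ)).toNat = 1 := by
      rw [Int.emod_eq_of_lt (by omega) (by omega)]; rfl
    rw [this]; simp [dd]
  rw [h0, h1, h2, D_zero]
  have h3 := Z_nonneg k
  have h4 := Z_le k
  have h5 := L_ge k
  have h6 := B_pos k
  have h7 : -(A k + B k * Z k) - -(A k + B k * L k) = B k * (L k - Z k) := by ring
  rw [h7, abs_of_nonneg (mul_nonneg h6.le (by linarith))]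
  exact mul_le_mul_of_nonneg_left (by linarith) h6.le

/-! ### The eigenfunction -/

noncomputable def u : ℕ → ℝ
  | 0 => 1
  | 1 => D 0 0 / 2
  | n + 2 => D 0 ((n + 1 : ℕ) : ℤ) * u (n + 1) - u n

theorem u_zero : u 0 = 1 := by rw [u]
theorem u_one : u 1 = D 0 0 / 2 := by rw [u]
theorem u_succ (n : ℕ) : u (n + 2) = D 0 ((n + 1 : ℕ) : ℤ) * u (n + 1) - u n := by rw [u]

/-- the recurrence on the sublattice of level `k`, and its interpolation form -/
theorem u_level (k : ℕ) :
    2 * u (q k) = D k 0 * u 0 ∧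
      ∀ i : ℕ, u (q k * (i + 2)) + u (q k * i) = D k ((i + 1 : ℕ) : ℤ) * u (q k * (i + 1)) := by
  induction k with
  | zero =>
    refine ⟨?_, fun i => ?_⟩
    · simp only [q, u_zero, u_one]; ring
    · simp only [q, one_mul]
      rw [u_succ]; ring
  | succ k ih =>
    obtain ⟨ih0, ih⟩ := ih
    have hm := m_ge k
    have hp := p_pos k
    -- interpolation on the cell starting at `m k * j`
    have interp : ∀ j l : ℕ, l ≤ m k → p k (m k) * u (q k * (m k * j + l)) =
        p k (m k - l) * u (q k * (m k * j)) + p k l * u (q k * (m k * j + m k)) := by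
      intro j l hl
      have := P_interp (dd k (E k)) (m k) hp.ne' (fun l h1 h2 => dd_symm k _ l h1 h2)
        (fun l => u (q k * (m k * j + l))) (fun l h1 h2 => by
          obtain ⟨t, rfl⟩ : ∃ t, l = t + 1 := ⟨l - 1, by omega⟩
          have h3 := ih (m k * j + t)
          have h4 : D k ((m k * j + t + 1 : ℕ) : ℤ) = dd k (E k) (t + 1) := by
            have hmod : ((m k * j + t + 1 : ℕ) : ℤ) % (m k : ℤ) = ((t + 1 : ℕ) : ℤ) := by
              rw [← Int.natCast_mod]
              congr 1
              rw [add_assoc, Nat.mul_add_mod]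
              exact Nat.mod_eq_of_lt h2
            rw [D_of_not_dvd, hmod]
            · rfl
            · intro hdv
              have := Int.emod_eq_zero_of_dvd hdv
              rw [hmod] at this
              omega
          rw [h4] at h3
          exact h3) l hl
      simp only [add_zero] at this
      exact this
    refine ⟨?_, fun i => ?_⟩
    · have h1 := interp 0 1 (by omega)
      have h2 : p k 1 = 1 := P_one _
      have h3 : D k 0 = a k + b k * D (k + 1) 0 := by
        have := D_mul k 0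
        rwa [mul_zero] at this
      have hq : q (k + 1) = q k * m k := rfl
      rw [h2] at h1
      simp only [mul_zero, zero_add, mul_one, one_mul] at h1
      rw [h3] at ih0
      unfold a b at ih0
      rw [hq]
      have h4 : p k (m k) * (2 * u (q k)) =
          (2 * p k (m k - 1) + D (k + 1) 0) * u 0 := by
        rw [ih0]; field_simp
      linarith
    · have hq : q (k + 1) = q k * m k := rfl
      have h2 : p k 1 = 1 := P_one _
      have h1 := interp (i + 1) 1 (by omega)
      have h3 := interp i (m k - 1) (by omega)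
      have e1 : m k - (m k - 1) = 1 := by omega
      rw [e1, h2] at h3
      rw [h2] at h1
      obtain ⟨t, ht⟩ : ∃ t, m k = t + 1 := ⟨m k - 1, by omega⟩
      have h5 := ih (m k * i + t)
      have e2 : m k * i + t + 1 = m k * (i + 1) := by rw [ht]; ring
      have e3 : m k * i + t + 2 = m k * (i + 1) + 1 := by rw [ht]; ring
      have e4 : m k * i + t = m k * i + (m k - 1) := by omega
      rw [e2, e3, e4] at h5
      have h6 : D k ((m k * (i + 1) : ℕ) : ℤ) = a k + b k * D (k + 1) ((i + 1 : ℕ) : ℤ) := by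
        push_cast
        exact_mod_cast D_mul k ((i : ℤ) + 1)
      rw [h6] at h5
      have e5 : m k * (i + 1) + m k = m k * (i + 2) := by ring
      have e6 : m k * i + m k = m k * (i + 1) := by ring
      rw [e5] at h1
      rw [e6] at h3
      rw [hq, mul_assoc, mul_assoc, mul_assoc]
      unfold a b at h5
      have h7 : p k (m k) * (u (q k * (m k * (i + 1) + 1)) + u (q k * (m k * i + (m k - 1)))) =
          (2 * p k (m k - 1) + D (k + 1) ((i + 1 : ℕ) : ℤ)) * u (q k * (m k * (i + 1))) := by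
        rw [h5]; field_simp
      linarith

theorem u_interp (k j l : ℕ) (hl : l ≤ m k) : p k (m k) * u (q k * (m k * j + l)) =
    p k (m k - l) * u (q k * (m k * j)) + p k l * u (q k * (m k * (j + 1))) := by
  have hm := m_ge k
  have hp := p_pos k
  obtain ⟨-, ih⟩ := u_level k
  have := P_interp (dd k (E k)) (m k) hp.ne' (fun l h1 h2 => dd_symm k _ l h1 h2)
    (fun l => u (q k * (m k * j + l))) (fun l h1 h2 => by
      obtain ⟨t, rfl⟩ : ∃ t, l = t + 1 := ⟨l - 1, by omega⟩
      have h3 := ih (m k * j + t)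
      have h4 : D k ((m k * j + t + 1 : ℕ) : ℤ) = dd k (E k) (t + 1) := by
        have hmod : ((m k * j + t + 1 : ℕ) : ℤ) % (m k : ℤ) = ((t + 1 : ℕ) : ℤ) := by
          rw [← Int.natCast_mod]
          congr 1
          rw [add_assoc, Nat.mul_add_mod]
          exact Nat.mod_eq_of_lt h2
        rw [D_of_not_dvd, hmod]
        · rfl
        · intro hdv
          have := Int.emod_eq_zero_of_dvd hdv
          rw [hmod] at this
          omega
      rw [h4] at h3
      exact h3) l hl
  have e : m k * (j + 1) = m k * j + m k := by ring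
  rw [e]
  simp only [add_zero] at this
  exact this

/-- one step of the summation estimate -/
theorem sum_step (k M : ℕ) (h : ∀ j ≤ M, 0 ≤ u (q k * (m k * j))) :
    (∀ i ≤ m k * M, 0 ≤ u (q k * i)) ∧
      ∑ i ∈ Finset.range (m k * M + 1), u (q k * i) ≤
        (1 + 2 / (L k - 2)) * ∑ j ∈ Finset.range (M + 1), u (q k * (m k * j)) := by
  have hm := m_ge k
  have hp := p_pos k
  have hL := L_ge k
  have hL2 : 0 < L k - 2 := by linarith
  have hpn : ∀ l, l ≤ m k → 0 ≤ p k l := by
    intro l hl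
    rcases Nat.lt_or_ge l (m k) with h1 | h1
    · exact (p_growth k l h1).1
    · have : l = m k := le_antisymm hl h1
      rw [this]; exact hp.le
  have hsum : ∑ l ∈ Finset.range (m k), p k l ≤ p k (m k) / (L k - 2) :=
    P_sum (dd k (E k)) (m k) (L k) (by linarith) (fun l _ _ => dd_ge' k l) (m k) le_rfl
  constructor
  · intro i hi
    rcases Nat.lt_or_ge i (m k * M) with h1 | h1
    · set j := i / m k with hj
      set l := i % m k with hl
      have hdm : m k * j + l = i := Nat.div_add_mod i (m k)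
      have hlm : l < m k := Nat.mod_lt _ (by omega)
      have hjM : j < M := by
        by_contra hc
        have : m k * M ≤ m k * j := Nat.mul_le_mul_left _ (not_lt.1 hc)
        omega
      have h2 := u_interp k j l hlm.le
      rw [hdm] at h2
      have h3 : 0 ≤ p k (m k) * u (q k * i) := by
        rw [h2]
        exact add_nonneg (mul_nonneg (hpn _ (by omega)) (h j hjM.le))
          (mul_nonneg (hpn _ hlm.le) (h (j + 1) hjM))
      exact nonneg_of_mul_nonneg_right h3 hp
    · have : i = m k * M := le_antisymm hi h1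
      rw [this]; exact h M le_rfl
  · -- stronger statement by induction
    have key : ∀ N, N ≤ M → ∑ i ∈ Finset.range (m k * N + 1), u (q k * i) ≤
        (1 + 2 / (L k - 2)) * (∑ j ∈ Finset.range (N + 1), u (q k * (m k * j))) -
          1 / (L k - 2) * u (q k * (m k * N)) := by
      intro N
      induction N with
      | zero =>
        intro _
        have h0 := h 0 (Nat.zero_le _)
        simp only [mul_zero, zero_add, Finset.range_one, Finset.sum_singleton] at h0 ⊢
        have h1 : 0 ≤ 1 / (L k - 2) * u 0 := by positivity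
        have h2 : (1 + 2 / (L k - 2)) * u 0 = u 0 + 2 * (1 / (L k - 2) * u 0) := by ring
        rw [h2]; linarith
      | succ N ih =>
        intro hN
        have h1 := ih (by omega)
        have hY0 := h N (by omega)
        have hY1 := h (N + 1) hN
        have e1 : m k * (N + 1) + 1 = m k * N + 1 + m k := by ring
        rw [e1, Finset.sum_range_add]
        rw [Finset.sum_range_succ _ (N + 1)]
        -- the sum over one cell
        have hcell : ∑ x ∈ Finset.range (m k), u (q k * (m k * N + 1 + x)) ≤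
            1 / (L k - 2) * (u (q k * (m k * N)) + u (q k * (m k * (N + 1)))) +
              u (q k * (m k * (N + 1))) := by
          obtain ⟨t, ht⟩ : ∃ t, m k = t + 1 := ⟨m k - 1, by omega⟩
          have e2 : ∑ x ∈ Finset.range (m k), u (q k * (m k * N + 1 + x)) =
              ∑ x ∈ Finset.range t, u (q k * (m k * N + (x + 1))) +
                u (q k * (m k * (N + 1))) := by
            conv_lhs => rw [ht]
            rw [Finset.sum_range_succ]
            congr 1
            · refine Finset.sum_congr (by rfl) fun x _ => ?_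
              rw [← ht]
              congr 2; ring
            · congr 2; rw [ht]; ring
          rw [e2]
          have e3 : p k (m k) * ∑ x ∈ Finset.range t, u (q k * (m k * N + (x + 1))) =
              (∑ x ∈ Finset.range t, p k (m k - (x + 1))) * u (q k * (m k * N)) +
                (∑ x ∈ Finset.range t, p k (x + 1)) * u (q k * (m k * (N + 1))) := by
            rw [Finset.mul_sum, Finset.sum_mul, Finset.sum_mul, ← Finset.sum_add_distrib]
            refine Finset.sum_congr rfl fun x hx => ?_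
            rw [Finset.mem_range] at hx
            exact u_interp k N (x + 1) (by omega)
          have e4 : ∑ x ∈ Finset.range t, p k (x + 1) = ∑ l ∈ Finset.range (m k), p k l := by
            rw [ht, Finset.sum_range_succ']
            have : p k 0 = 0 := P_zero _
            rw [this, add_zero]
          have e5 : ∑ x ∈ Finset.range t, p k (m k - (x + 1)) = ∑ x ∈ Finset.range t, p k (x + 1) := by
            rw [← Finset.sum_range_reflect (fun x => p k (x + 1)) t]
            refine Finset.sum_congr rfl fun x hx => ?_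
            rw [Finset.mem_range] at hx
            congr 1; omega
          rw [e5, e4] at e3
          have h6 : ∑ x ∈ Finset.range t, u (q k * (m k * N + (x + 1))) ≤
              1 / (L k - 2) * (u (q k * (m k * N)) + u (q k * (m k * (N + 1)))) := by
            have h7 : p k (m k) * ∑ x ∈ Finset.range t, u (q k * (m k * N + (x + 1))) ≤
                p k (m k) * (1 / (L k - 2) * (u (q k * (m k * N)) + u (q k * (m k * (N + 1))))) := by
              rw [e3, ← mul_add]
              calc _ ≤ p k (m k) / (L k - 2) * (u (q k * (m k * N)) + u (q k * (m k * (N + 1)))) :=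
                    mul_le_mul_of_nonneg_right hsum (add_nonneg hY0 hY1)
                _ = _ := by ring
            exact le_of_mul_le_mul_left h7 hp
          linarith
        have e7 : ∑ x ∈ Finset.range (m k), u (q k * (m k * N + 1 + x)) =
            ∑ x ∈ Finset.range (m k), u (q k * (m k * N + 1 + x)) := rfl
        have h8 : (1 + 2 / (L k - 2)) * (∑ j ∈ Finset.range (N + 1), u (q k * (m k * j)) +
            u (q k * (m k * (N + 1)))) = (1 + 2 / (L k - 2)) *
              (∑ j ∈ Finset.range (N + 1), u (q k * (m k * j))) +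
              (u (q k * (m k * (N + 1))) + 2 * (1 / (L k - 2) * u (q k * (m k * (N + 1))))) := by
          ring
        rw [h8]
        have h9 : 1 / (L k - 2) * (u (q k * (m k * N)) + u (q k * (m k * (N + 1)))) =
          1 / (L k - 2) * u (q k * (m k * N)) + 1 / (L k - 2) * u (q k * (m k * (N + 1))) := by ring
        rw [h9] at hcell
        linarith
    have h1 := key M le_rfl
    have h2 := h M le_rfl
    have h3 : 0 ≤ 1 / (L k - 2) * u (q k * (m k * M)) := by positivity
    linarith

/-- product of the constants -/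
noncomputable def Cst (k : ℕ) : ℝ := ∏ j ∈ Finset.range k, (1 + 2 / (L j - 2))

theorem Cst_pos (k : ℕ) : 0 < Cst k :=
  Finset.prod_pos fun j _ => by
    have := L_ge j
    have : 0 < L j - 2 := by linarith
    positivity

theorem Cst_le (k : ℕ) : Cst k ≤ Real.exp 1 := by
  unfold Cst
  calc ∏ j ∈ Finset.range k, (1 + 2 / (L j - 2)) ≤
      ∏ j ∈ Finset.range k, Real.exp ((1 / 2 : ℝ) ^ (j + 1)) := by
        refine Finset.prod_le_prod (fun j _ => ?_) fun j _ => ?_
        · have := L_ge j
          have : 0 < L j - 2 := by linarith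
          positivity
        · have h1 : 2 / (L j - 2) ≤ (1 / 2 : ℝ) ^ (j + 1) := by
            have hL := L_ge j
            have h2 : L j = 4 * 2 ^ (j + 1) := by unfold L; ring
            rw [one_div_pow, div_le_div_iff₀ (by linarith) (by positivity)]
            have h3 : (1 : ℝ) ≤ 2 ^ (j + 1) := one_le_pow₀ (by norm_num)
            rw [h2]; linarith
          have := Real.add_one_le_exp ((1 / 2 : ℝ) ^ (j + 1))
          linarith
    _ = Real.exp (∑ j ∈ Finset.range k, (1 / 2 : ℝ) ^ (j + 1)) := (Real.exp_sum _ _).symm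
    _ ≤ Real.exp 1 := by
        rw [Real.exp_le_exp]
        have h1 : ∑ j ∈ Finset.range k, (1 / 2 : ℝ) ^ (j + 1) = 1 - (1 / 2 : ℝ) ^ k := by
          induction k with
          | zero => simp
          | succ k ih => rw [Finset.sum_range_succ, ih]; ring
        rw [h1]
        have : (0 : ℝ) < (1 / 2 : ℝ) ^ k := by positivity
        linarith

theorem sum_all (k : ℕ) : ∀ M : ℕ, (∀ j ≤ M, 0 ≤ u (q k * j)) →
    (∀ i ≤ q k * M, 0 ≤ u i) ∧
      ∑ i ∈ Finset.range (q k * M + 1), u i ≤ Cst k * ∑ j ∈ Finset.range (M + 1), u (q k * j) := by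
  induction k with
  | zero =>
    intro M h
    simp only [q, one_mul] at h ⊢
    refine ⟨h, ?_⟩
    simp [Cst]
  | succ k ih =>
    intro M h
    have hq : q (k + 1) = q k * m k := rfl
    simp only [hq, mul_assoc] at h ⊢
    obtain ⟨h1, h2⟩ := sum_step k M h
    obtain ⟨h3, h4⟩ := ih (m k * M) h1
    refine ⟨h3, h4.trans ?_⟩
    have h5 : Cst (k + 1) = Cst k * (1 + 2 / (L k - 2)) := Finset.prod_range_succ _ _
    rw [h5, mul_assoc]
    exact mul_le_mul_of_nonneg_left h2 (Cst_pos k).le

theorem u_qk (k : ℕ) : u (q k) = Z k / 2 := by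
  have := (u_level k).1
  rw [u_zero, D_zero] at this
  linarith

theorem u_nonneg_and_sum (k : ℕ) : (∀ i ≤ q k, 0 ≤ u i) ∧
    ∑ i ∈ Finset.range (q k + 1), u i ≤ 2 * Real.exp 1 := by
  have h := sum_all k 1 (by
    intro j hj
    interval_cases j
    · rw [mul_zero, u_zero]; exact zero_le_one
    · rw [mul_one, u_qk]; have := Z_nonneg k; positivity)
  rw [mul_one] at h
  refine ⟨h.1, h.2.trans ?_⟩
  have h1 : ∑ j ∈ Finset.range (1 + 1), u (q k * j) = 1 + Z k / 2 := by
    rw [Finset.sum_range_succ, Finset.sum_range_one, mul_zero, mul_one, u_zero, u_qk]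
  rw [h1]
  have h2 := Cst_le k
  have h3 := Cst_pos k
  have h4 := Z_le k
  have h5 := Z_nonneg k
  nlinarith

theorem u_nonneg (n : ℕ) : 0 ≤ u n :=
  (u_nonneg_and_sum n).1 n (by have := le_q n; omega)

theorem u_sum_le (n : ℕ) : ∑ i ∈ Finset.range n, u i ≤ 2 * Real.exp 1 := by
  refine le_trans ?_ (u_nonneg_and_sum n).2
  exact Finset.sum_le_sum_of_subset_of_nonneg
    (Finset.range_subset_range.2 (by have := le_q n; omega)) fun i _ _ => u_nonneg i

theorem u_summable : Summable u := summable_of_sum_range_le u_nonneg u_sum_le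

theorem u_le (n : ℕ) : u n ≤ 2 * Real.exp 1 := by
  refine le_trans ?_ (u_sum_le (n + 1))
  exact Finset.single_le_sum (f := u) (fun i _ => u_nonneg i) (Finset.self_mem_range_succ n)

theorem u_sq_summable : Summable fun n => u n ^ 2 := by
  refine Summable.of_nonneg_of_le (fun n => sq_nonneg _) (fun n => ?_)
    (u_summable.mul_left (2 * Real.exp 1))
  rw [sq]
  exact mul_le_mul_of_nonneg_right (u_le n) (u_nonneg n)

theorem u_abs_eq (n : ℤ) :
    u (n + 1).natAbs + u (n - 1).natAbs + V n * u n.natAbs = 0 := by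
  have hpos : ∀ n : ℕ, u ((n : ℤ) + 1).natAbs + u ((n : ℤ) - 1).natAbs + V n * u (n : ℤ).natAbs = 0 := by
    intro n
    rcases n with _ | n
    · have h1 : V 0 = -D 0 0 := rfl
      simp only [Nat.cast_zero, zero_add, zero_sub, Int.natAbs_one, Int.natAbs_neg, Int.natAbs_zero,
        u_zero, u_one, h1]
      ring
    · have h1 : V ((n + 1 : ℕ) : ℤ) = -D 0 ((n + 1 : ℕ) : ℤ) := rfl
      have e1 : (((n + 1 : ℕ) : ℤ) + 1).natAbs = n + 2 := by omega
      have e2 : (((n + 1 : ℕ) : ℤ) - 1).natAbs = n := by omega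
      have e3 : (((n + 1 : ℕ) : ℤ)).natAbs = n + 1 := by omega
      rw [e1, e2, e3, h1, u_succ]; ring
  rcases Int.natAbs_eq n with h | h
  · rw [h]; exact hpos _
  · have h1 := hpos n.natAbs
    rw [h, V_neg]
    have e1 : (-(n.natAbs : ℤ) + 1).natAbs = ((n.natAbs : ℤ) - 1).natAbs := by omega
    have e2 : (-(n.natAbs : ℤ) - 1).natAbs = ((n.natAbs : ℤ) + 1).natAbs := by omega
    rw [e1, e2, Int.natAbs_neg]
    linarith

end Pool.Agent.Helper92.LimPer.Con
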