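import Mathlib

/-!
# Definitions: limit-periodic potentials, discrete Schrödinger operators, spectral type
-/

open scoped InnerProductSpace
open MeasureTheory Filter Topology

namespace Pool.Agent.Helper92.LimPer

/-! ### Sequences on `ℤ` -/

/-- A real sequence on `ℤ` is periodic if `V (n + p) = V n` for some `p ≥ 1` and all `n`. -/
def IsPeriodicSeq (V : ℤ → ℝ) : Prop := ∃ p : ℕ, 1 ≤ p ∧ ∀ n, V (n + p) = V n

/-- A real sequence on `ℤ` is limit-periodic if it is a uniform limit of periodic sequences. -/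
def LimitPeriodic (V : ℤ → ℝ) : Prop :=
  ∃ W : ℕ → ℤ → ℝ, (∀ k, IsPeriodicSeq (W k)) ∧ TendstoUniformly W V atTop

/-- boundedness of a real sequence on `ℤ` -/
def BoundedSeq (V : ℤ → ℝ) : Prop := ∃ C : ℝ, ∀ n, |V n| ≤ C

theorem BoundedSeq.const_mul {V : ℤ → ℝ} (hV : BoundedSeq V) (c : ℝ) :
    BoundedSeq (fun n => c * V n) := by
  obtain ⟨C, hC⟩ := hV
  exact ⟨|c| * C, fun n => by rw [abs_mul]; exact mul_le_mul_of_nonneg_left (hC n) (abs_nonneg _)⟩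

theorem IsPeriodicSeq.bounded {V : ℤ → ℝ} (h : IsPeriodicSeq V) : BoundedSeq V := by
  obtain ⟨p, hp, hV⟩ := h
  have hmul : ∀ (k : ℕ) (n : ℤ), V (n + k * p) = V n := by
    intro k
    induction k with
    | zero => intro n; simp
    | succ k ih =>
      intro n
      have : n + ((k + 1 : ℕ) : ℤ) * p = (n + k * p) + p := by push_cast; ring
      rw [this, hV, ih]
  have hmul' : ∀ (k : ℤ) (n : ℤ), V (n + k * p) = V n := by
    intro k n
    rcases Int.natAbs_eq k with hk | hk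
    · rw [hk]; exact hmul _ _
    · rw [hk]
      have := hmul k.natAbs (n + -(k.natAbs : ℤ) * p)
      rw [← this]; congr 1; ring
  refine ⟨∑ j ∈ Finset.range p, |V j|, fun n => ?_⟩
  have hp0 : (0 : ℤ) < p := by omega
  have h1 : V n = V (n % p) := by
    have h2 := hmul' (n / p) (n % p)
    rw [← h2]; congr 1
    have := Int.emod_add_mul_ediv n p
    linarith
  have h2 : 0 ≤ n % p := Int.emod_nonneg _ hp0.ne'
  have h3 : n % p < p := Int.emod_lt_of_pos _ hp0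
  have h4 : V n = V (((n % p).toNat : ℕ) : ℤ) := by rw [h1, Int.toNat_of_nonneg h2]
  rw [h4]
  exact Finset.single_le_sum (f := fun j : ℕ => |V j|) (fun _ _ => abs_nonneg _)
    (Finset.mem_range.2 (by omega))

theorem LimitPeriodic.bounded {V : ℤ → ℝ} (h : LimitPeriodic V) : BoundedSeq V := by
  obtain ⟨W, hW, hlim⟩ := h
  obtain ⟨k, hk⟩ := (Metric.tendstoUniformly_iff.1 hlim 1 one_pos).exists
  obtain ⟨C, hC⟩ := (hW k).bounded
  refine ⟨C + 1, fun n => ?_⟩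
  have h1 := hk n
  rw [Real.dist_eq] at h1
  calc |V n| = |W k n + (V n - W k n)| := by ring_nf
    _ ≤ |W k n| + |V n - W k n| := abs_add_le _ _
    _ ≤ C + 1 := add_le_add (hC n) h1.le

/-! ### The operators -/

/-- `ℓ²(ℤ)` -/
abbrev L2Z : Type := lp (fun _ : ℤ => ℂ) 2

theorem memlp_iff (f : ℤ → ℂ) : Memℓp (E := fun _ : ℤ => ℂ) f 2 ↔ Summable fun n => ‖f n‖ ^ 2 := by
  rw [memℓp_gen_iff (by norm_num)]
  simp

theorem memlp_shift (ψ : L2Z) (a : ℤ) : Memℓp (E := fun _ : ℤ => ℂ) (fun n => ψ (n + a)) 2 := by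
  rw [memlp_iff]
  have := (memlp_iff _).1 (lp.memℓp ψ)
  exact (Equiv.addRight a).summable_iff.2 this

theorem memlp_mul (V : ℤ → ℝ) (hV : BoundedSeq V) (ψ : L2Z) :
    Memℓp (E := fun _ : ℤ => ℂ) (fun n => (V n : ℂ) * ψ n) 2 := by
  obtain ⟨C, hC⟩ := hV
  rw [memlp_iff]
  have := (memlp_iff _).1 (lp.memℓp ψ)
  refine Summable.of_nonneg_of_le (fun n => by positivity) (fun n => ?_) (this.mul_left (C ^ 2))
  rw [norm_mul, mul_pow]
  refine mul_le_mul_of_nonneg_right ?_ (by positivity)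
  rw [Complex.norm_real, Real.norm_eq_abs]
  exact pow_le_pow_left₀ (abs_nonneg _) (hC n) 2

theorem norm_sq_eq (ψ : L2Z) : ‖ψ‖ ^ 2 = ∑' n, ‖ψ n‖ ^ 2 := by
  have := lp.norm_rpow_eq_tsum (p := 2) (by norm_num) ψ
  simpa using this

/-- the sequence `n ↦ ψ(n-1) + ψ(n+1) + V(n) ψ(n)` as an element of `ℓ²(ℤ)` -/
noncomputable def schrodingerFun (V : ℤ → ℝ) (hV : BoundedSeq V) (ψ : L2Z) : L2Z :=
  ⟨fun n => ψ (n - 1) + ψ (n + 1) + (V n : ℂ) * ψ n,
    ((memlp_shift ψ (-1)).add (memlp_shift ψ 1)).add (memlp_mul V hV ψ)⟩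

noncomputable def shiftFun (a : ℤ) (ψ : L2Z) : L2Z := ⟨fun n => ψ (n + a), memlp_shift ψ a⟩

noncomputable def mulFun (V : ℤ → ℝ) (hV : BoundedSeq V) (ψ : L2Z) : L2Z :=
  ⟨fun n => (V n : ℂ) * ψ n, memlp_mul V hV ψ⟩

theorem norm_shiftFun (a : ℤ) (ψ : L2Z) : ‖shiftFun a ψ‖ = ‖ψ‖ := by
  have h : ‖shiftFun a ψ‖ ^ 2 = ‖ψ‖ ^ 2 := by
    rw [norm_sq_eq, norm_sq_eq]
    exact (Equiv.addRight a).tsum_eq (fun n => ‖ψ n‖ ^ 2)
  exact (sq_eq_sq₀ (norm_nonneg _) (norm_nonneg _)).1 h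

theorem norm_mulFun_le (V : ℤ → ℝ) (hV : BoundedSeq V) {C : ℝ} (hC : ∀ n, |V n| ≤ C)
    (ψ : L2Z) : ‖mulFun V hV ψ‖ ≤ C * ‖ψ‖ := by
  have hC0 : 0 ≤ C := (abs_nonneg _).trans (hC 0)
  have h : ‖mulFun V hV ψ‖ ^ 2 ≤ (C * ‖ψ‖) ^ 2 := by
    rw [norm_sq_eq, mul_pow, norm_sq_eq, ← tsum_mul_left]
    have h1 := (memlp_iff _).1 (lp.memℓp ψ)
    refine Summable.tsum_le_tsum (fun n => ?_) ((memlp_iff _).1 (memlp_mul V hV ψ)) (h1.mul_left _)
    show ‖(V n : ℂ) * ψ n‖ ^ 2 ≤ _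
    rw [norm_mul, mul_pow]
    refine mul_le_mul_of_nonneg_right ?_ (by positivity)
    rw [Complex.norm_real, Real.norm_eq_abs]
    exact pow_le_pow_left₀ (abs_nonneg _) (hC n) 2
  exact (sq_le_sq₀ (norm_nonneg _) (by positivity)).1 h

theorem schrodingerFun_eq (V : ℤ → ℝ) (hV : BoundedSeq V) (ψ : L2Z) :
    schrodingerFun V hV ψ = shiftFun (-1) ψ + shiftFun 1 ψ + mulFun V hV ψ := rfl

theorem norm_schrodingerFun_le (V : ℤ → ℝ) (hV : BoundedSeq V) {C : ℝ}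
    (hC : ∀ n, |V n| ≤ C) (ψ : L2Z) : ‖schrodingerFun V hV ψ‖ ≤ (2 + C) * ‖ψ‖ := by
  rw [schrodingerFun_eq]
  calc _ ≤ ‖shiftFun (-1) ψ‖ + ‖shiftFun 1 ψ‖ + ‖mulFun V hV ψ‖ := norm_add₃_le
    _ ≤ ‖ψ‖ + ‖ψ‖ + C * ‖ψ‖ := by
      rw [norm_shiftFun, norm_shiftFun]
      have := norm_mulFun_le V hV hC ψ
      linarith
    _ = (2 + C) * ‖ψ‖ := by ring

/-- The Schrödinger operator `H_V = Δ + V` on `ℓ²(ℤ)`, for a bounded potential `V`:
`(H_V ψ)(n) = ψ(n-1) + ψ(n+1) + V(n) ψ(n)`. -/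
noncomputable def schrodinger (V : ℤ → ℝ) (hV : BoundedSeq V) : L2Z →L[ℂ] L2Z :=
  LinearMap.mkContinuousOfExistsBound
    { toFun := schrodingerFun V hV
      map_add' := by
        intro x y
        ext n
        show x (n - 1) + y (n - 1) + (x (n + 1) + y (n + 1)) + (V n : ℂ) * (x n + y n) =
          (x (n - 1) + x (n + 1) + (V n : ℂ) * x n) + (y (n - 1) + y (n + 1) + (V n : ℂ) * y n)
        ring
      map_smul' := by
        intro c x
        ext n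
        show c * x (n - 1) + c * x (n + 1) + (V n : ℂ) * (c * x n) =
          c * (x (n - 1) + x (n + 1) + (V n : ℂ) * x n)
        ring }
    (by
      obtain ⟨C, hC⟩ := hV
      exact ⟨2 + C, fun ψ => norm_schrodingerFun_le V ⟨C, hC⟩ hC ψ⟩)

theorem schrodinger_apply (V : ℤ → ℝ) (hV : BoundedSeq V) (ψ : L2Z) (n : ℤ) :
    schrodinger V hV ψ n = ψ (n - 1) + ψ (n + 1) + (V n : ℂ) * ψ n := rfl

theorem norm_schrodinger_apply_le (V : ℤ → ℝ) (hV : BoundedSeq V) {C : ℝ}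
    (hC : ∀ n, |V n| ≤ C) (ψ : L2Z) : ‖schrodinger V hV ψ‖ ≤ (2 + C) * ‖ψ‖ :=
  norm_schrodingerFun_le V hV hC ψ

theorem schrodinger_isSelfAdjoint (V : ℤ → ℝ) (hV : BoundedSeq V) :
    IsSelfAdjoint (schrodinger V hV) := by
  rw [ContinuousLinearMap.isSelfAdjoint_iff_isSymmetric]
  intro x y
  show ⟪schrodinger V hV x, y⟫_ℂ = ⟪x, schrodinger V hV y⟫_ℂ
  have hx : schrodinger V hV x = shiftFun (-1) x + shiftFun 1 x + mulFun V hV x := rfl
  have hy : schrodinger V hV y = shiftFun (-1) y + shiftFun 1 y + mulFun V hV y := rfl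
  have hsh : ∀ (a : ℤ) (x y : L2Z), ⟪shiftFun a x, y⟫_ℂ = ⟪x, shiftFun (-a) y⟫_ℂ := by
    intro a x y
    rw [lp.inner_eq_tsum, lp.inner_eq_tsum]
    rw [← (Equiv.addRight a).tsum_eq (fun n => ⟪x n, shiftFun (-a) y n⟫_ℂ)]
    refine tsum_congr fun n => ?_
    show ⟪x (n + a), y n⟫_ℂ = ⟪x (n + a), y (n + a + -a)⟫_ℂ
    rw [add_neg_cancel_right]
  have hm : ⟪mulFun V hV x, y⟫_ℂ = ⟪x, mulFun V hV y⟫_ℂ := by
    rw [lp.inner_eq_tsum, lp.inner_eq_tsum]
    refine tsum_congr fun n => ?_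
    show ⟪(V n : ℂ) * x n, y n⟫_ℂ = ⟪x n, (V n : ℂ) * y n⟫_ℂ
    simp
    ring
  rw [hx, hy, inner_add_left, inner_add_left, inner_add_right, inner_add_right, hsh, hsh, hm,
    neg_neg]
  ring

/-! ### Spectral measures and spectral type -/

section Spectral

variable {𝓗 : Type*} [NormedAddCommGroup 𝓗] [InnerProductSpace ℂ 𝓗] [CompleteSpace 𝓗]

/-- `μ` is the spectral measure of the vector `ψ` for the bounded self-adjoint operator `T`: the
finite Borel measure on `ℝ` with `∫ f dμ = ⟨ψ, f(T) ψ⟩` for every bounded continuous `f`, where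
`f(T)` is given by the continuous functional calculus. -/
def IsSpectralMeasure (T : 𝓗 →L[ℂ] 𝓗) (ψ : 𝓗) (μ : Measure ℝ) : Prop :=
  IsFiniteMeasure μ ∧ ∀ f : BoundedContinuousFunction ℝ ℝ,
    ((∫ x, f x ∂μ : ℝ) : ℂ) = ⟪ψ, cfc (fun x : ℝ => f x) T ψ⟫_ℂ

/-- the labels `ac`, `sc`, `pp` -/
inductive SpectralLabel
  | ac
  | sc
  | pp

/-- The absolutely continuous, singular continuous and pure point subspaces: the vectors whose
spectral measure is absolutely continuous with respect to Lebesgue measure, respectively singular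
to Lebesgue measure and without atoms, respectively carried by a countable set. -/
def spectralSubspace (T : 𝓗 →L[ℂ] 𝓗) : SpectralLabel → Set 𝓗
  | .ac => {ψ | ∃ μ, IsSpectralMeasure T ψ μ ∧ μ ≪ volume}
  | .sc => {ψ | ∃ μ, IsSpectralMeasure T ψ μ ∧ μ ⟂ₘ volume ∧ ∀ x, μ {x} = 0}
  | .pp => {ψ | ∃ μ, IsSpectralMeasure T ψ μ ∧ ∃ C : Set ℝ, C.Countable ∧ μ Cᶜ = 0}

/-- The spectral type: the set of labels whose spectral subspace contains a non-zero vector. -/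
def spectralType (T : 𝓗 →L[ℂ] 𝓗) : Set SpectralLabel :=
  {t | ∃ ψ ∈ spectralSubspace T t, ψ ≠ 0}

end Spectral

/-- The coupling-constant family `H_{λV} = Δ + λV` of a limit-periodic potential `V`. -/
noncomputable def couplingOp (V : ℤ → ℝ) (hV : LimitPeriodic V) (lam : ℝ) : L2Z →L[ℂ] L2Z :=
  schrodinger (fun n => lam * V n) (hV.bounded.const_mul lam)

end Pool.Agent.Helper92.LimPer
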