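import Mathlib

/-!
# A Gordon-type criterion for the absence of decaying solutions
-/

open Filter Topology

namespace Pool.Agent.Helper92.LimPer

/-- Transfer matrix over `n` sites: real entries with determinant one, first column bounded by
`G ^ n`, transporting every solution. -/
theorem exists_transfer (e : ℕ → ℝ) (G : ℝ) (n : ℕ) (he : ∀ j, 1 ≤ j → j ≤ n → |e j| + 1 ≤ G) :
    ∃ α β γ δ : ℝ, α * δ - β * γ = 1 ∧ |α| ≤ G ^ n ∧ |γ| ≤ G ^ n ∧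
      ∀ ψ : ℕ → ℂ, (∀ j, 1 ≤ j → j ≤ n → ψ (j + 1) + ψ (j - 1) = (e j : ℂ) * ψ j) →
        ψ (n + 1) = α * ψ 1 + β * ψ 0 ∧ ψ n = γ * ψ 1 + δ * ψ 0 := by
  induction n with
  | zero =>
    refine ⟨1, 0, 0, 1, by norm_num, by simp, by simp, fun ψ _ => ?_⟩
    simp
  | succ n ih =>
    obtain ⟨α, β, γ, δ, hdet, hα, hγ, h⟩ := ih fun j h1 h2 => he j h1 (h2.trans (Nat.le_succ n))
    have heG := he (n + 1) (Nat.succ_le_succ (Nat.zero_le n)) le_rfl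
    have hG1 : 1 ≤ G := by linarith [abs_nonneg (e (n + 1))]
    have hGn : (0 : ℝ) ≤ G ^ n := by positivity
    refine ⟨e (n + 1) * α - γ, e (n + 1) * β - δ, α, β, ?_, ?_, ?_, ?_⟩
    · nlinarith
    · calc |e (n + 1) * α - γ| ≤ |e (n + 1) * α| + |γ| := abs_sub _ _
        _ = |e (n + 1)| * |α| + |γ| := by rw [abs_mul]
        _ ≤ |e (n + 1)| * G ^ n + G ^ n := by
          have := mul_le_mul_of_nonneg_left hα (abs_nonneg (e (n + 1)))
          linarith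
        _ = (|e (n + 1)| + 1) * G ^ n := by ring
        _ ≤ G * G ^ n := mul_le_mul_of_nonneg_right heG hGn
        _ = G ^ (n + 1) := by ring
    · calc |α| ≤ G ^ n := hα
        _ ≤ G ^ (n + 1) := pow_le_pow_right₀ hG1 (Nat.le_succ n)
    · intro ψ hψ
      obtain ⟨h1, h2⟩ := h ψ fun j h1 h2 => hψ j h1 (h2.trans (Nat.le_succ n))
      have h3 := hψ (n + 1) (Nat.succ_le_succ (Nat.zero_le n)) le_rfl
      simp only [Nat.add_sub_cancel] at h3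
      refine ⟨?_, h1⟩
      have h4 : ψ (n + 1 + 1) = (e (n + 1) : ℂ) * ψ (n + 1) - ψ n := by
        rw [← h3]; ring
      rw [h4, h1, h2]
      push_cast
      ring

/-- One-scale Gordon estimate. -/
theorem gordon_step (e : ℤ → ℝ) (q : ℕ) (hq : 1 ≤ q) (G : ℝ)
    (hG : ∀ j : ℕ, 1 ≤ j → j < q → |e j| + 1 ≤ G)
    (hper : ∀ j : ℕ, 1 ≤ j → j < q → e (q + j) = e j ∧ e (-q + j) = e j)
    (hev : e (-q) = e q)
    (ψ : ℤ → ℂ) (hψ : ∀ n, ψ (n + 1) + ψ (n - 1) = (e n : ℂ) * ψ n) :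
    (‖ψ 0‖ + ‖ψ (-1)‖) * (1 - (2 * G ^ (q - 1) + 1) * |e 0 - e q|) ≤
      ‖ψ (2 * q)‖ + ‖ψ (2 * q - 1)‖ + ‖ψ q‖ + ‖ψ (q - 1)‖ + ‖ψ (-q)‖ + ‖ψ (-q - 1)‖ := by
  obtain ⟨n, rfl⟩ : ∃ n, q = n + 1 := ⟨q - 1, by omega⟩
  obtain ⟨α, β, γ, δ, hdet, hα, hγ, h⟩ := exists_transfer (fun j => e j) G n
    (fun j h1 h2 => hG j h1 (by omega))
  -- the three windows
  have w0 := h (fun j => ψ j) (fun j h1 h2 => by
    have := hψ j
    have h3 : ((j - 1 : ℕ) : ℤ) = (j : ℤ) - 1 := by omega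
    simp only [h3]
    push_cast
    exact this)
  have w1 := h (fun j => ψ ((n + 1 : ℕ) + j)) (fun j h1 h2 => by
    have := hψ ((n + 1 : ℕ) + j)
    rw [(hper j h1 (by omega)).1] at this
    have h3 : ((j - 1 : ℕ) : ℤ) = (j : ℤ) - 1 := by omega
    simp only [h3]
    push_cast
    push_cast at this
    rw [← this]
    ring_nf)
  have w2 := h (fun j => ψ (-(n + 1 : ℕ) + j)) (fun j h1 h2 => by
    have := hψ (-(n + 1 : ℕ) + j)
    rw [(hper j h1 (by omega)).2] at this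
    have h3 : ((j - 1 : ℕ) : ℤ) = (j : ℤ) - 1 := by omega
    simp only [h3]
    push_cast
    push_cast at this
    rw [← this]
    ring_nf)
  have s0 := hψ 0
  have s1 := hψ (n + 1 : ℕ)
  have s2 := hψ (-(n + 1 : ℕ))
  rw [hev] at s2
  push_cast at w0 w1 w2 s0 s1 s2 ⊢
  simp only [Nat.add_sub_cancel, zero_add, zero_sub, add_zero] at w0 w1 w2 s0 s1 s2 ⊢
  have e1 : (2 * ((n : ℤ) + 1) : ℤ) = (n : ℤ) + 1 + (n + 1) := by ring
  have e2 : (n : ℤ) + 1 + (n + 1) - 1 = (n : ℤ) + 1 + n := by ring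
  have e3 : (n : ℤ) + 1 - 1 = n := by ring
  rw [e1, e2, e3]
  rw [e3] at s1
  have e4 : (-((n : ℤ) + 1) + (n + 1)) = 0 := by ring
  have e5 : (-((n : ℤ) + 1) + n) = -1 := by ring
  rw [e4, e5] at w2
  obtain ⟨a1, a2⟩ := w0
  obtain ⟨b1, b2⟩ := w1
  obtain ⟨c1, c2⟩ := w2
  set x0 := ψ 0
  set y0 := ψ (-1)
  set x1 := ψ ((n : ℤ) + 1)
  set y1 := ψ (n : ℤ)
  set x2 := ψ ((n : ℤ) + 1 + (n + 1))
  set y2 := ψ ((n : ℤ) + 1 + n)
  set xm := ψ (-((n : ℤ) + 1))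
  set ym := ψ (-((n : ℤ) + 1) - 1)
  set e0 := e 0
  set eq := e ((n : ℤ) + 1)
  have t0 : ψ 1 = (e0 : ℂ) * x0 - y0 := by rw [← s0]; ring
  have t1 : ψ ((n : ℤ) + 1 + 1) = (eq : ℂ) * x1 - y1 := by rw [← s1]; ring
  have t2 : ψ (-((n : ℤ) + 1) + 1) = (eq : ℂ) * xm - ym := by rw [← s2]; ring
  rw [t0] at a1 a2
  rw [t1] at b1 b2
  rw [t2] at c1 c2
  have hdet' : (α : ℂ) * δ - β * γ = 1 := by exact_mod_cast hdet
  set τ : ℝ := α * eq + β - γ with hτ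
  -- `x1 + xm = τ x0 + α (e0 - eq) x0`, etc.
  have hxm : xm = -(γ : ℂ) * x0 + α * y0 := by
    have : xm = ((α : ℂ) * δ - β * γ) * xm := by rw [hdet']; ring
    rw [this, c1, c2]; ring
  have hym : ym = (eq : ℂ) * xm - (δ * x0 - β * y0) := by
    have : (eq : ℂ) * xm - ym = ((α : ℂ) * δ - β * γ) * ((eq : ℂ) * xm - ym) := by
      rw [hdet']; ring
    have h2 : (eq : ℂ) * xm - ym = δ * x0 - β * y0 := by
      rw [this, c1, c2]; ring
    rw [← h2]; ring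
  have r1 : (τ : ℂ) * x0 = x1 + xm - α * ((e0 : ℂ) - eq) * x0 := by
    rw [a1, hxm, hτ]; push_cast; ring
  have r2 : (τ : ℂ) * y0 = y1 + ym - γ * ((e0 : ℂ) - eq) * x0 := by
    rw [hym, hxm, a2, hτ]; push_cast; ring
  have r3 : x0 = (τ : ℂ) * x1 - x2 := by
    have : x2 = (τ : ℂ) * x1 - ((α : ℂ) * δ - β * γ) * x0 := by
      rw [b1, hτ]
      push_cast
      have : γ * x1 - α * y1 = -((α : ℂ) * δ - β * γ) * x0 := by
        rw [a1, a2]; ring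
      linear_combination this
    rw [this, hdet']; ring
  have r4 : y0 = (τ : ℂ) * y1 - y2 - ((eq : ℂ) - e0) * x0 := by
    have h1 : δ * x1 - β * y1 = ((α : ℂ) * δ - β * γ) * ((e0 : ℂ) * x0 - y0) := by
      rw [a1, a2]; ring
    rw [hdet', one_mul] at h1
    have h2 : γ * x1 - α * y1 = -((α : ℂ) * δ - β * γ) * x0 := by
      rw [a1, a2]; ring
    rw [hdet'] at h2
    rw [b2, hτ]
    push_cast
    linear_combination h1 + (eq : ℂ) * h2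
  have hGn : (0 : ℝ) ≤ G ^ n := (abs_nonneg _).trans hα
  have hd : (0 : ℝ) ≤ |e0 - eq| := abs_nonneg _
  have hnd : ‖((e0 : ℂ) - eq)‖ = |e0 - eq| := by
    rw [← Complex.ofReal_sub, Complex.norm_real, Real.norm_eq_abs]
  have hnd' : ‖((eq : ℂ) - e0)‖ = |e0 - eq| := by
    rw [norm_sub_rev, hnd]
  have hx0 := norm_nonneg x0
  have hy0 := norm_nonneg y0
  have hx1 := norm_nonneg x1
  have hy1 := norm_nonneg y1
  have hx2 := norm_nonneg x2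
  have hy2 := norm_nonneg y2
  have hxm' := norm_nonneg xm
  have hym' := norm_nonneg ym
  rcases le_total 1 |τ| with hτ1 | hτ1
  · have k1 : |τ| * ‖x0‖ ≤ ‖x1‖ + ‖xm‖ + G ^ n * |e0 - eq| * ‖x0‖ := by
      have : ‖(τ : ℂ) * x0‖ = |τ| * ‖x0‖ := by rw [norm_mul, Complex.norm_real, Real.norm_eq_abs]
      rw [← this, r1]
      calc ‖x1 + xm - α * ((e0 : ℂ) - eq) * x0‖ ≤ ‖x1 + xm‖ + ‖α * ((e0 : ℂ) - eq) * x0‖ :=
            norm_sub_le _ _
        _ ≤ ‖x1‖ + ‖xm‖ + |α| * |e0 - eq| * ‖x0‖ := by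
            rw [norm_mul, norm_mul, hnd, Complex.norm_real, Real.norm_eq_abs]
            linarith [norm_add_le x1 xm]
        _ ≤ ‖x1‖ + ‖xm‖ + G ^ n * |e0 - eq| * ‖x0‖ := by
            have := mul_le_mul_of_nonneg_right (mul_le_mul_of_nonneg_right hα hd) hx0
            linarith
    have k2 : |τ| * ‖y0‖ ≤ ‖y1‖ + ‖ym‖ + G ^ n * |e0 - eq| * ‖x0‖ := by
      have : ‖(τ : ℂ) * y0‖ = |τ| * ‖y0‖ := by rw [norm_mul, Complex.norm_real, Real.norm_eq_abs]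
      rw [← this, r2]
      calc ‖y1 + ym - γ * ((e0 : ℂ) - eq) * x0‖ ≤ ‖y1 + ym‖ + ‖γ * ((e0 : ℂ) - eq) * x0‖ :=
            norm_sub_le _ _
        _ ≤ ‖y1‖ + ‖ym‖ + |γ| * |e0 - eq| * ‖x0‖ := by
            rw [norm_mul, norm_mul, hnd, Complex.norm_real, Real.norm_eq_abs]
            linarith [norm_add_le y1 ym]
        _ ≤ ‖y1‖ + ‖ym‖ + G ^ n * |e0 - eq| * ‖x0‖ := by
            have := mul_le_mul_of_nonneg_right (mul_le_mul_of_nonneg_right hγ hd) hx0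
            linarith
    have k3 : ‖x0‖ ≤ |τ| * ‖x0‖ := by nlinarith
    have k4 : ‖y0‖ ≤ |τ| * ‖y0‖ := by nlinarith
    have k5 : 0 ≤ G ^ n * |e0 - eq| * ‖y0‖ := by positivity
    have k6 : 0 ≤ |e0 - eq| * (‖x0‖ + ‖y0‖) := by positivity
    nlinarith
  · have k1 : ‖x0‖ ≤ ‖x1‖ + ‖x2‖ := by
      calc ‖x0‖ = ‖(τ : ℂ) * x1 - x2‖ := by rw [← r3]
        _ ≤ ‖(τ : ℂ) * x1‖ + ‖x2‖ := norm_sub_le _ _
        _ = |τ| * ‖x1‖ + ‖x2‖ := by rw [norm_mul, Complex.norm_real, Real.norm_eq_abs]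
        _ ≤ ‖x1‖ + ‖x2‖ := by nlinarith
    have k2 : ‖y0‖ ≤ ‖y1‖ + ‖y2‖ + |e0 - eq| * ‖x0‖ := by
      calc ‖y0‖ = ‖(τ : ℂ) * y1 - y2 - ((eq : ℂ) - e0) * x0‖ := by rw [← r4]
        _ ≤ ‖(τ : ℂ) * y1 - y2‖ + ‖((eq : ℂ) - e0) * x0‖ := norm_sub_le _ _
        _ ≤ ‖(τ : ℂ) * y1‖ + ‖y2‖ + ‖((eq : ℂ) - e0) * x0‖ := by
          linarith [norm_sub_le ((τ : ℂ) * y1) y2]
        _ = |τ| * ‖y1‖ + ‖y2‖ + |e0 - eq| * ‖x0‖ := by
          rw [norm_mul, norm_mul, hnd', Complex.norm_real, Real.norm_eq_abs]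
        _ ≤ ‖y1‖ + ‖y2‖ + |e0 - eq| * ‖x0‖ := by nlinarith
    have k5 : 0 ≤ |e0 - eq| * ‖y0‖ := by positivity
    have k6 : 0 ≤ G ^ n * |e0 - eq| * (‖x0‖ + ‖y0‖) := by positivity
    nlinarith

/-- A solution of the recurrence vanishing at two consecutive sites vanishes identically. -/
theorem eq_zero_of_two (e : ℤ → ℝ) (ψ : ℤ → ℂ)
    (hψ : ∀ n, ψ (n + 1) + ψ (n - 1) = (e n : ℂ) * ψ n) (h0 : ψ 0 = 0) (h1 : ψ (-1) = 0) :
    ∀ n, ψ n = 0 := by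
  have hr : ∀ n : ℕ, ψ n = 0 ∧ ψ ((n : ℤ) - 1) = 0 := by
    intro n
    induction n with
    | zero => exact ⟨by simpa using h0, by simpa using h1⟩
    | succ n ih =>
      have := hψ n
      rw [ih.1, ih.2] at this
      refine ⟨?_, ?_⟩
      · push_cast; simpa using this
      · push_cast; rw [add_sub_cancel_right]; exact ih.1
  have hl : ∀ n : ℕ, ψ (-n) = 0 ∧ ψ (-(n : ℤ) - 1) = 0 := by
    intro n
    induction n with
    | zero => exact ⟨by simpa using h0, by simpa using h1⟩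
    | succ n ih =>
      have := hψ (-(n : ℤ) - 1)
      rw [ih.2] at this
      have h2 : -(n : ℤ) - 1 + 1 = -n := by ring
      rw [h2, ih.1] at this
      have h3 : -((n : ℤ) + 1) = -(n : ℤ) - 1 := by ring
      push_cast
      rw [h3]
      exact ⟨ih.2, by simpa using this⟩
  intro n
  rcases Int.natAbs_eq n with h | h
  · rw [h]; exact (hr _).1
  · rw [h]; exact (hl _).1

/-- Gordon-type criterion for the absence of decaying solutions. -/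
theorem gordon (e : ℤ → ℝ) (q : ℕ → ℕ) (hq : Tendsto q atTop atTop) (G : ℝ)
    (hG : ∀ n, |e n| + 1 ≤ G)
    (hper : ∀ k, ∀ j : ℕ, 1 ≤ j → j < q k → e (q k + j) = e j ∧ e (-(q k : ℤ) + j) = e j)
    (hev : ∀ k, e (-(q k : ℤ)) = e (q k))
    (hsmall : Tendsto (fun k => (2 * G ^ (q k - 1) + 1) * |e 0 - e (q k)|) atTop (𝓝 0))
    (ψ : ℤ → ℂ) (hψ : ∀ n, ψ (n + 1) + ψ (n - 1) = (e n : ℂ) * ψ n)
    (htop : Tendsto (fun n : ℤ => ‖ψ n‖) atTop (𝓝 0))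
    (hbot : Tendsto (fun n : ℤ => ‖ψ n‖) atBot (𝓝 0)) : ∀ n, ψ n = 0 := by
  have hqZ : Tendsto (fun k => (q k : ℤ)) atTop atTop := tendsto_natCast_atTop_atTop.comp hq
  have hq1 : Tendsto (fun k => (q k : ℤ) - 1) atTop atTop := by
    simpa [sub_eq_add_neg] using tendsto_atTop_add_const_right _ (-1) hqZ
  have hq2 : Tendsto (fun k => 2 * (q k : ℤ)) atTop atTop := by
    refine tendsto_atTop_mono (fun k => ?_) hqZ
    have : (0 : ℤ) ≤ q k := Int.natCast_nonneg _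
    linarith
  have hq3 : Tendsto (fun k => 2 * (q k : ℤ) - 1) atTop atTop := by
    simpa [sub_eq_add_neg] using tendsto_atTop_add_const_right _ (-1) hq2
  have hq4 : Tendsto (fun k => -(q k : ℤ)) atTop atBot := tendsto_neg_atTop_atBot.comp hqZ
  have hq5 : Tendsto (fun k => -(q k : ℤ) - 1) atTop atBot := by
    have : (fun k => -(q k : ℤ) - 1) = fun k => -((q k : ℤ) + 1) := by ext k; ring
    rw [this]
    exact tendsto_neg_atTop_atBot.comp (tendsto_atTop_add_const_right _ 1 hqZ)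
  have hR : Tendsto (fun k => ‖ψ (2 * q k)‖ + ‖ψ (2 * q k - 1)‖ + ‖ψ (q k)‖ + ‖ψ (q k - 1)‖ +
      ‖ψ (-(q k : ℤ))‖ + ‖ψ (-(q k : ℤ) - 1)‖) atTop (𝓝 0) := by
    have := (((((htop.comp hq2).add (htop.comp hq3)).add (htop.comp hqZ)).add
      (htop.comp hq1)).add (hbot.comp hq4)).add (hbot.comp hq5)
    simpa using this
  have hL : Tendsto (fun k => (‖ψ 0‖ + ‖ψ (-1)‖) *
      (1 - (2 * G ^ (q k - 1) + 1) * |e 0 - e (q k)|)) atTop (𝓝 (‖ψ 0‖ + ‖ψ (-1)‖)) := by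
    have := (hsmall.const_sub 1).const_mul (‖ψ 0‖ + ‖ψ (-1)‖)
    simpa using this
  have hle : ‖ψ 0‖ + ‖ψ (-1)‖ ≤ 0 := by
    refine le_of_tendsto_of_tendsto hL hR ?_
    filter_upwards [hq.eventually_ge_atTop 1] with k hk
    exact gordon_step e (q k) hk G (fun j _ _ => hG j) (hper k) (hev k) ψ hψ
  have h0 : ‖ψ 0‖ = 0 := le_antisymm (by linarith [norm_nonneg (ψ (-1))]) (norm_nonneg _)
  have h1 : ‖ψ (-1)‖ = 0 := le_antisymm (by linarith [norm_nonneg (ψ 0)]) (norm_nonneg _)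
  exact eq_zero_of_two e ψ hψ (norm_eq_zero.1 h0) (norm_eq_zero.1 h1)

end Pool.Agent.Helper92.LimPer
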