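import Pool.Agent.Helper92.LimPer.Defs

/-!
# Eigenvectors and the pure point part of the spectral type
-/

open scoped InnerProductSpace
open MeasureTheory Filter Topology

namespace Pool.Agent.Helper92.LimPer

section Spectral

variable {𝓗 : Type*} [NormedAddCommGroup 𝓗] [InnerProductSpace ℂ 𝓗] [CompleteSpace 𝓗]

omit [CompleteSpace 𝓗] in
theorem mem_spectrum_of_eigen {T : 𝓗 →L[ℂ] 𝓗} {ψ : 𝓗} (hψ : ψ ≠ 0) {E : ℝ}
    (h : T ψ = (E : ℂ) • ψ) : E ∈ spectrum ℝ T := by
  rw [spectrum.mem_iff]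
  intro hu
  have h1 : (algebraMap ℝ (𝓗 →L[ℂ] 𝓗) E - T) ψ = 0 := by
    rw [sub_apply, h, Algebra.algebraMap_eq_smul_one]
    simp
  obtain ⟨u, hu⟩ := hu
  have h2 : ((↑u⁻¹ : 𝓗 →L[ℂ] 𝓗) * (algebraMap ℝ (𝓗 →L[ℂ] 𝓗) E - T)) ψ = 0 := by
    rw [mul_apply_eq_comp, h1, map_zero]
  rw [← hu, Units.inv_mul] at h2
  exact hψ (by simpa using h2)

theorem cfc_eigen {T : 𝓗 →L[ℂ] 𝓗} (hT : IsSelfAdjoint T) {ψ : 𝓗} (hψ : ψ ≠ 0) {E : ℝ}
    (h : T ψ = (E : ℂ) • ψ) (f : ℝ → ℝ) (hf : Continuous f) :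
    cfc f T ψ = ((f E : ℝ) : ℂ) • ψ := by
  have hE := mem_spectrum_of_eigen hψ h
  have key : ∀ g : C(spectrum ℝ T, ℝ), cfcHom hT g ψ = ((g ⟨E, hE⟩ : ℝ) : ℂ) • ψ := by
    intro g
    induction g using ContinuousMap.induction_on_of_compact with
    | const r =>
      have : (ContinuousMap.const (spectrum ℝ T) r) = algebraMap ℝ _ r := rfl
      rw [this, AlgHomClass.commutes, Algebra.algebraMap_eq_smul_one]
      simp
    | id =>
      have := cfcHom_id (R := ℝ) hT
      rw [this, h]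
      rfl
    | star_id =>
      have := cfcHom_id (R := ℝ) hT
      rw [map_star, this, hT.star_eq, h]
      rfl
    | add f g hf hg =>
      rw [map_add, add_apply, hf, hg, ← add_smul]
      simp
    | mul f g hf hg =>
      rw [map_mul, mul_apply_eq_comp, hg, map_smul, hf, smul_smul]
      simp [mul_comm]
    | frequently f hf =>
      have hcl : IsClosed {g : C(spectrum ℝ T, ℝ) | cfcHom hT g ψ = ((g ⟨E, hE⟩ : ℝ) : ℂ) • ψ} := by
        refine isClosed_eq ?_ ?_
        · exact ((ContinuousLinearMap.apply ℂ 𝓗 ψ).continuous).comp (cfcHom_continuous hT)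
        · exact (Complex.continuous_ofReal.comp (continuous_eval_const _)).smul
            continuous_const
      exact hcl.mem_of_frequently_of_tendsto hf tendsto_id
  rw [cfc_apply f T hT hf.continuousOn]
  exact key _

theorem pp_of_eigen {T : 𝓗 →L[ℂ] 𝓗} (hT : IsSelfAdjoint T) {ψ : 𝓗} (hψ : ψ ≠ 0) {E : ℝ}
    (h : T ψ = (E : ℂ) • ψ) : SpectralLabel.pp ∈ spectralType T := by
  refine ⟨ψ, ⟨ENNReal.ofReal (‖ψ‖ ^ 2) • Measure.dirac E, ⟨?_, ?_⟩, {E}, Set.countable_singleton E, ?_⟩, hψ⟩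
  · exact Measure.smul_finite _ ENNReal.ofReal_ne_top
  · intro f
    rw [cfc_eigen hT hψ h _ f.continuous, integral_smul_measure, integral_dirac, inner_smul_right,
      inner_self_eq_norm_sq_to_K, ENNReal.toReal_ofReal (by positivity)]
    simp [mul_comm]
  · simp

theorem norm_sq_cfc {T : 𝓗 →L[ℂ] 𝓗} {ψ : 𝓗} {μ : Measure ℝ}
    (hμ : IsSpectralMeasure T ψ μ) (f : BoundedContinuousFunction ℝ ℝ) :
    ‖cfc (fun x : ℝ => f x) T ψ‖ ^ 2 = ∫ x, f x ^ 2 ∂μ := by
  have h1 := hμ.2 (f * f)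
  have h2 : cfc (fun x : ℝ => (f * f) x) T = cfc (fun x : ℝ => f x) T * cfc (fun x : ℝ => f x) T := by
    rw [← cfc_mul (fun x : ℝ => f x) (fun x : ℝ => f x) T f.continuous.continuousOn
      f.continuous.continuousOn]
    rfl
  have h3 : IsSelfAdjoint (cfc (fun x : ℝ => f x) T) := IsSelfAdjoint.cfc
  rw [h2, mul_apply_eq_comp] at h1
  have h4 : ⟪ψ, cfc (fun x : ℝ => f x) T (cfc (fun x : ℝ => f x) T ψ)⟫_ℂ =
      ⟪cfc (fun x : ℝ => f x) T ψ, cfc (fun x : ℝ => f x) T ψ⟫_ℂ := by
    conv_rhs => rw [← ContinuousLinearMap.adjoint_inner_right]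
    rw [← ContinuousLinearMap.star_eq_adjoint, h3.star_eq]
  rw [h4, inner_self_eq_norm_sq_to_K] at h1
  have h5 : ((∫ x, f x ^ 2 ∂μ : ℝ) : ℂ) = ((‖cfc (fun x : ℝ => f x) T ψ‖ ^ 2 : ℝ) : ℂ) := by
    have : (∫ x, (f * f) x ∂μ) = ∫ x, f x ^ 2 ∂μ := by
      congr 1; ext x; simp [sq]
    rw [this] at h1
    rw [h1]
    simp
  exact_mod_cast h5.symm

/-- tent function of height one at `E`, of half-width `1/(n+1)` -/
noncomputable def tent (E : ℝ) (n : ℕ) : BoundedContinuousFunction ℝ ℝ :=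
  BoundedContinuousFunction.ofNormedAddCommGroup (fun x => max 0 (1 - (n + 1) * |x - E|))
    (by fun_prop) 1 (by
      intro x
      have h : 0 ≤ ((n : ℝ) + 1) * |x - E| := by positivity
      rw [Real.norm_eq_abs, abs_le]
      constructor
      · linarith [le_max_left (0 : ℝ) (1 - (n + 1) * |x - E|)]
      · exact max_le zero_le_one (by linarith))

theorem tent_apply (E : ℝ) (n : ℕ) (x : ℝ) : tent E n x = max 0 (1 - (n + 1) * |x - E|) := rfl

/-- the tent function multiplied by `x - E` -/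
noncomputable def xtent (E : ℝ) (n : ℕ) : BoundedContinuousFunction ℝ ℝ :=
  BoundedContinuousFunction.ofNormedAddCommGroup
    (fun x => (x - E) * max 0 (1 - (n + 1) * |x - E|))
    (by fun_prop) (1 / (n + 1)) (by
      intro x
      have hn : (0 : ℝ) < n + 1 := by positivity
      rw [Real.norm_eq_abs, abs_mul, abs_of_nonneg (le_max_left (0 : ℝ) _)]
      rcases le_total (1 - (n + 1) * |x - E|) 0 with h | h
      · rw [max_eq_left h]; simp; positivity
      · rw [max_eq_right h]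
        have h1 : |x - E| ≤ 1 / (n + 1) := by
          rw [le_div_iff₀ hn]; linarith
        have h2 : 1 - (n + 1) * |x - E| ≤ 1 := by
          have : 0 ≤ ((n : ℝ) + 1) * |x - E| := by positivity
          linarith
        calc |x - E| * (1 - (n + 1) * |x - E|) ≤ |x - E| * 1 :=
              mul_le_mul_of_nonneg_left h2 (abs_nonneg _)
          _ ≤ 1 / (n + 1) := by rw [mul_one]; exact h1)

theorem xtent_apply (E : ℝ) (n : ℕ) (x : ℝ) :
    xtent E n x = (x - E) * tent E n x := rfl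

theorem xtent_bound (E : ℝ) (n : ℕ) (x : ℝ) : |xtent E n x| ≤ 1 / (n + 1) := by
  have hn : (0 : ℝ) < n + 1 := by positivity
  exact (BoundedContinuousFunction.norm_coe_le_norm (xtent E n) x).trans
    (BoundedContinuousFunction.norm_ofNormedAddCommGroup_le _ (by positivity) _)

theorem tent_nonneg (E : ℝ) (n : ℕ) (x : ℝ) : 0 ≤ tent E n x := le_max_left _ _

theorem tent_self (E : ℝ) (n : ℕ) : tent E n E = 1 := by
  simp [tent_apply]

theorem tent_anti (E : ℝ) {n m : ℕ} (h : n ≤ m) (x : ℝ) : tent E m x ≤ tent E n x := by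
  rw [tent_apply, tent_apply]
  apply max_le_max_left
  have : ((n : ℝ) + 1) * |x - E| ≤ (m + 1) * |x - E| := by
    apply mul_le_mul_of_nonneg_right _ (abs_nonneg _)
    have : (n : ℝ) ≤ m := by exact_mod_cast h
    linarith
  linarith

theorem exists_eigen_of_atom {T : 𝓗 →L[ℂ] 𝓗} (hT : IsSelfAdjoint T) {ψ : 𝓗} {μ : Measure ℝ}
    (hμ : IsSpectralMeasure T ψ μ) {E : ℝ} (hE : μ {E} ≠ 0) :
    ∃ φ : 𝓗, φ ≠ 0 ∧ T φ = (E : ℂ) • φ := by
  have := hμ.1
  set φ : ℕ → 𝓗 := fun n => cfc (fun x : ℝ => tent E n x) T ψ with hφ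
  set I : ℕ → ℝ := fun n => ∫ x, tent E n x ^ 2 ∂μ with hI
  have hint : ∀ f : BoundedContinuousFunction ℝ ℝ, Integrable (fun x => f x ^ 2) μ := by
    intro f
    have := (f * f).integrable μ
    refine this.congr (Filter.Eventually.of_forall fun x => ?_)
    simp [sq]
  have hIanti : Antitone I := by
    intro n m hnm
    refine integral_mono (hint _) (hint _) fun x => ?_
    exact pow_le_pow_left₀ (tent_nonneg _ _ _) (tent_anti E hnm x) 2
  have hI0 : ∀ n, μ.real {E} ≤ I n := by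
    intro n
    calc μ.real {E} = ∫ x, Set.indicator {E} (fun _ => (1 : ℝ)) x ∂μ := by
          rw [integral_indicator_const _ (measurableSet_singleton E)]; simp
      _ ≤ I n := by
          refine integral_mono ?_ (hint _) fun x => ?_
          · exact (integrable_const (1 : ℝ)).indicator (measurableSet_singleton E)
          · by_cases hx : x = E
            · subst hx; simp [tent_self]
            · simp [Set.indicator, hx]; positivity
  have hbdd : BddBelow (Set.range I) := ⟨μ.real {E}, by rintro _ ⟨n, rfl⟩; exact hI0 n⟩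
  have hItend := tendsto_atTop_ciInf hIanti hbdd
  have hdiff : ∀ n m, n ≤ m → ‖φ n - φ m‖ ^ 2 ≤ I n - I m := by
    intro n m hnm
    have h1 : φ n - φ m = cfc (fun x : ℝ => (tent E n - tent E m) x) T ψ := by
      have : cfc (fun x : ℝ => (tent E n - tent E m) x) T =
          cfc (fun x : ℝ => tent E n x) T - cfc (fun x : ℝ => tent E m x) T := by
        rw [← cfc_sub (fun x : ℝ => tent E n x) (fun x : ℝ => tent E m x) T
          (tent E n).continuous.continuousOn (tent E m).continuous.continuousOn]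
        rfl
      rw [this]; rfl
    rw [h1, norm_sq_cfc hμ, ← integral_sub (hint _) (hint _)]
    refine integral_mono (hint _) ((hint _).sub (hint _)) fun x => ?_
    have h2 := tent_nonneg E m x
    have h3 := tent_anti E hnm x
    simp only [BoundedContinuousFunction.coe_sub, Pi.sub_apply]
    nlinarith
  have hcau : CauchySeq φ := by
    refine cauchySeq_of_le_tendsto_0 (fun N => Real.sqrt (2 * (I N - ⨅ n, I n))) ?_ ?_
    · intro n m N hn hm
      rw [dist_eq_norm]
      apply Real.le_sqrt_of_sq_le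
      have hle : ∀ n, (⨅ n, I n) ≤ I n := fun n => ciInf_le hbdd n
      have h0 := hle N
      rcases le_total n m with h | h
      · have := hdiff n m h
        have h5 := hIanti hn
        have h6 := hle m
        linarith
      · have := hdiff m n h
        rw [norm_sub_rev] at this
        have h5 := hIanti hm
        have h6 := hle n
        linarith
    · have h1 : Tendsto (fun N => 2 * (I N - ⨅ n, I n)) atTop (𝓝 (2 * ((⨅ n, I n) - ⨅ n, I n))) :=
        (hItend.sub_const _).const_mul 2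
      have h2 := (Real.continuous_sqrt.tendsto _).comp h1
      simp only [sub_self, mul_zero, Real.sqrt_zero] at h2
      exact h2
  obtain ⟨φ₀, hφ₀⟩ := cauchySeq_tendsto_of_complete hcau
  refine ⟨φ₀, ?_, ?_⟩
  · intro h0
    rw [h0] at hφ₀
    have h1 : Tendsto (fun n => ‖φ n‖ ^ 2) atTop (𝓝 0) := by
      have := (hφ₀.norm).pow 2
      simpa using this
    have h2 : ∀ n, μ.real {E} ≤ ‖φ n‖ ^ 2 := by
      intro n
      rw [hφ]
      simp only
      rw [norm_sq_cfc hμ]
      exact hI0 n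
    have h3 : μ.real {E} ≤ 0 := ge_of_tendsto' h1 h2
    have h4 : 0 < μ.real {E} := by
      rw [Measure.real, ENNReal.toReal_pos_iff]
      exact ⟨pos_iff_ne_zero.2 hE, measure_lt_top _ _⟩
    linarith
  · have h1 : Tendsto (fun n => T (φ n) - (E : ℂ) • φ n) atTop (𝓝 (T φ₀ - (E : ℂ) • φ₀)) :=
      (T.continuous.tendsto _ |>.comp hφ₀).sub (hφ₀.const_smul _)
    have h2 : ∀ n : ℕ, ‖T (φ n) - (E : ℂ) • φ n‖ ^ 2 ≤ μ.real Set.univ * (1 / (n + 1)) ^ 2 := by
      intro n
      have h3 : T (φ n) - (E : ℂ) • φ n = cfc (fun x : ℝ => xtent E n x) T ψ := by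
        have h4 : cfc (fun x : ℝ => xtent E n x) T =
            (T - algebraMap ℝ (𝓗 →L[ℂ] 𝓗) E) * cfc (fun x : ℝ => tent E n x) T := by
          have h5 : cfc (fun x : ℝ => x - E) T = T - algebraMap ℝ (𝓗 →L[ℂ] 𝓗) E := by
            rw [cfc_sub (fun x : ℝ => x) (fun _ => E) T continuous_id.continuousOn
              continuous_const.continuousOn, cfc_const E T hT]
            congr 1
            exact cfc_id' ℝ T hT
          rw [← h5, ← cfc_mul (fun x : ℝ => x - E) (fun x : ℝ => tent E n x) T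
            (by fun_prop) (tent E n).continuous.continuousOn]
          rfl
        rw [h4, mul_apply_eq_comp, sub_apply,
          Algebra.algebraMap_eq_smul_one]
        simp [hφ]
      rw [h3, norm_sq_cfc hμ]
      calc ∫ x, xtent E n x ^ 2 ∂μ ≤ ∫ _x, ((1 : ℝ) / (n + 1)) ^ 2 ∂μ := by
            refine integral_mono (hint _) (integrable_const _) fun x => ?_
            rw [← sq_abs]
            exact pow_le_pow_left₀ (abs_nonneg _) (xtent_bound E n x) 2
        _ = μ.real Set.univ * (1 / (n + 1)) ^ 2 := by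
            rw [integral_const]; simp
    have h3 : Tendsto (fun n : ℕ => μ.real Set.univ * ((1 : ℝ) / (n + 1)) ^ 2) atTop (𝓝 0) := by
      have := (tendsto_one_div_add_atTop_nhds_zero_nat (𝕜 := ℝ)).pow 2
      simpa using this.const_mul (μ.real Set.univ)
    have h4 : Tendsto (fun n => ‖T (φ n) - (E : ℂ) • φ n‖ ^ 2) atTop (𝓝 0) :=
      squeeze_zero (fun n => by positivity) h2 h3
    have h5 : ‖T φ₀ - (E : ℂ) • φ₀‖ ^ 2 = 0 := tendsto_nhds_unique (h1.norm.pow 2) h4
    have h6 : T φ₀ - (E : ℂ) • φ₀ = 0 := by simpa using h5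
    exact sub_eq_zero.1 h6

theorem exists_eigen_of_pp {T : 𝓗 →L[ℂ] 𝓗} (hT : IsSelfAdjoint T)
    (h : SpectralLabel.pp ∈ spectralType T) : ∃ (E : ℝ) (φ : 𝓗), φ ≠ 0 ∧ T φ = (E : ℂ) • φ := by
  obtain ⟨ψ, ⟨μ, hμ, C, hC, hμC⟩, hψ⟩ := h
  have := hμ.1
  by_contra hcon
  push Not at hcon
  have hat : ∀ x : ℝ, μ {x} = 0 := by
    intro x
    by_contra hx
    obtain ⟨φ, hφ, hφ'⟩ := exists_eigen_of_atom hT hμ hx
    exact hcon x φ hφ hφ'
  have hC0 : μ C = 0 := by
    rw [← Set.biUnion_of_singleton C]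
    exact (measure_biUnion_null_iff hC).2 fun x _ => hat x
  have hu : μ Set.univ = 0 := by
    rw [← Set.union_compl_self C]
    exact measure_union_null hC0 hμC
  have h1 := hμ.2 1
  have h2 : cfc (fun x : ℝ => (1 : BoundedContinuousFunction ℝ ℝ) x) T = 1 := cfc_one ℝ T
  rw [h2] at h1
  have h3 : μ = 0 := Measure.measure_univ_eq_zero.1 hu
  rw [h3] at h1
  simp at h1
  exact hψ (by simpa using h1.symm)

end Spectral

end Pool.Agent.Helper92.LimPer
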